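import Pool.Agent.TH782.VMad.Final

set_option autoImplicit false

/-! Mad families of block subspaces coded by closed sets of block sequences. -/

open MeasureTheory

namespace Pool.Agent.TH782.VMad

variable {F : Type} [Field F]

/-- Block sequences of nonzero vectors. -/
def IsBlockSeq (x : ℕ → (ℕ →₀ F)) : Prop :=
  (∀ n, x n ≠ 0) ∧ ∀ n, ∀ i ∈ (x n).support, ∀ j ∈ (x (n + 1)).support, i < j

/-- The subspace spanned by a sequence. -/
noncomputable def spanOf (x : ℕ → (ℕ →₀ F)) : Submodule F (ℕ →₀ F) := Submodule.span F (Set.range x)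

/-- Block subspaces. -/
def IsBlockSubspace (V : Submodule F (ℕ →₀ F)) : Prop := ∃ x, IsBlockSeq x ∧ V = spanOf x

/-- Almost disjoint subspaces. -/
def AlmostDisjoint (V W : Submodule F (ℕ →₀ F)) : Prop := FiniteDimensional F ↥(V ⊓ W)

/-- Mad families of block subspaces. -/
def IsMadBlock (𝒜 : Set (Submodule F (ℕ →₀ F))) : Prop :=
  (∀ A ∈ 𝒜, IsBlockSubspace A) ∧
  (∀ A ∈ 𝒜, ∀ B ∈ 𝒜, A ≠ B → AlmostDisjoint A B) ∧
  ∀ V, IsBlockSubspace V → ∃ A ∈ 𝒜, ¬ AlmostDisjoint V A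

/-- Closed sets of sequences of vectors, for the product of the discrete topologies: whether `x` is
outside `C` is seen from finitely many terms of `x`. -/
def IsClosedCode (C : Set (ℕ → (ℕ →₀ F))) : Prop :=
  ∀ x, x ∉ C → ∃ n : ℕ, ∀ y, (∀ i < n, y i = x i) → y ∉ C

theorem GSeq.isBlockSeq {seq : ℕ → List (ℕ →₀ F)} {a : ℕ → (ℕ →₀ F)} (h : GSeq seq a) :
    IsBlockSeq a :=
  ⟨h.ne_zero, fun n => h.below (Nat.lt_succ_self n)⟩

theorem IsBlockSeq.below {x : ℕ → (ℕ →₀ F)} (h : IsBlockSeq x) {i j : ℕ} (hij : i < j) :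
    Below (x i) (x j) := by
  induction j, hij using Nat.le_induction with
  | base => exact h.2 i
  | succ j _ ih =>
    intro a ha b hb
    obtain ⟨c, hc⟩ := Finsupp.support_nonempty_iff.2 (h.1 j)
    exact lt_trans (ih a ha c hc) (h.2 j c hc b hb)

theorem IsBlockSubspace.not_finite {V : Submodule F (ℕ →₀ F)} (h : IsBlockSubspace V) :
    ¬ FiniteDimensional F V := by
  obtain ⟨x, hx, rfl⟩ := h
  have hfar : ∀ i, ∀ q ∈ (x i).support, i ≤ q := by
    intro i
    induction i with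
    | zero => intro q _; exact Nat.zero_le q
    | succ i ih =>
      intro q hq
      obtain ⟨c, hc⟩ := Finsupp.support_nonempty_iff.2 (hx.1 i)
      have h2 := ih c hc
      have h3 := hx.2 i c hc q hq
      omega
  exact not_finite_of_far fun m => ⟨x m, Submodule.subset_span ⟨m, rfl⟩, hx.1 m, hfar m⟩

theorem main_block [Countable F] {α : F} (h0 : α ≠ 0) (h1 : α ≠ 1) :
    ∃ C : Set (ℕ → (ℕ →₀ F)),
      IsClosedCode C ∧
      (∀ x ∈ C, IsBlockSeq x) ∧ Set.InjOn spanOf C ∧ IsMadBlock (spanOf '' C) ∧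
      ¬ (spanOf '' C).Countable ∧ MeasurableSet[borel ((ℕ →₀ F) → Bool)] (chars (spanOf '' C)) := by
  obtain ⟨seq, hc, hsurj⟩ := exists_seq (F := F)
  have e : spanOf '' {a | GSeq seq a} = Fam seq := by
    ext A
    constructor
    · rintro ⟨a, ha, rfl⟩
      exact ⟨a, ha, rfl⟩
    · rintro ⟨a, ha, rfl⟩
      exact ⟨a, ha, rfl⟩
  refine ⟨{a | GSeq seq a}, ?_, fun x hx => GSeq.isBlockSeq hx, ?_, ?_, ?_, ?_⟩
  · intro x hx
    have hx' : ¬ ∀ n, GB seq (x n) ∧ sg seq (x n) = (List.range n).map x := hx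
    rw [not_forall] at hx'
    obtain ⟨n, hn⟩ := hx'
    refine ⟨n + 1, fun y hy hyC => hn ?_⟩
    have e1 : (List.range n).map x = (List.range n).map y :=
      List.map_congr_left fun i hi => (hy i (by
        rw [List.mem_range] at hi
        omega)).symm
    rw [← hy n (Nat.lt_succ_self n), e1]
    exact hyC n
  · intro x hx y hy hxy
    exact GSeq.span_inj hx hy hxy
  · rw [e]
    refine ⟨?_, (isAD_fam (seq := seq)).2, ?_⟩
    · rintro A ⟨a, ha, rfl⟩
      exact ⟨a, ha.isBlockSeq, rfl⟩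
    · intro V hV
      obtain ⟨a, ha, hfin⟩ := maximal hc hsurj hV.not_finite h0 h1
      refine ⟨_, ⟨a, ha, rfl⟩, ?_⟩
      unfold AlmostDisjoint
      rwa [inf_comm]
  · rw [e]
    exact uncountable_fam hc hsurj h0 h1
  · rw [e]
    exact borel_fam

end Pool.Agent.TH782.VMad
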