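import Mathlib

set_option autoImplicit false

/-! Runs of vectors. -/

namespace Pool.Agent.TH782.VMad

variable {F : Type} [Field F]

/-- Every element of the support of `x` is smaller than every element of the support of `y`. -/
def Below (x y : ℕ →₀ F) : Prop := ∀ i ∈ x.support, ∀ j ∈ y.support, i < j

/-- The part of `v` that lives on `[p, ∞)`. -/
noncomputable def suf (p : ℕ) (v : ℕ →₀ F) : ℕ →₀ F := v.filter (fun i => p ≤ i)

theorem suf_apply (p : ℕ) (v : ℕ →₀ F) (q : ℕ) : suf p v q = if p ≤ q then v q else 0 := by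
  unfold suf
  rw [Finsupp.filter_apply]

theorem suf_apply_of_le {p q : ℕ} (h : p ≤ q) (v : ℕ →₀ F) : suf p v q = v q := by
  rw [suf_apply, if_pos h]

theorem suf_apply_of_lt {p q : ℕ} (h : q < p) (v : ℕ →₀ F) : suf p v q = 0 := by
  rw [suf_apply, if_neg (not_le.2 h)]

theorem mem_support_suf {p q : ℕ} {v : ℕ →₀ F} :
    q ∈ (suf p v).support ↔ p ≤ q ∧ q ∈ v.support := by
  rw [Finsupp.mem_support_iff, Finsupp.mem_support_iff, suf_apply]
  split_ifs with h
  · simp [h]
  · simp [h]

theorem suf_suf {p p' : ℕ} (h : p ≤ p') (v : ℕ →₀ F) : suf p' (suf p v) = suf p' v := by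
  ext q
  rw [suf_apply, suf_apply, suf_apply]
  split_ifs with h1 h2
  · rfl
  · exact absurd (h.trans h1) h2
  · rfl

theorem suf_smul (p : ℕ) (c : F) (v : ℕ →₀ F) : suf p (c • v) = c • suf p v := by
  ext q
  rw [suf_apply, Finsupp.smul_apply, Finsupp.smul_apply, suf_apply]
  split_ifs <;> simp

theorem suf_add (p : ℕ) (u v : ℕ →₀ F) : suf p (u + v) = suf p u + suf p v := by
  ext q
  rw [suf_apply, Finsupp.add_apply, Finsupp.add_apply, suf_apply, suf_apply]
  split_ifs <;> simp

theorem suf_eq_zero {p : ℕ} {v : ℕ →₀ F} (h : ∀ i ∈ v.support, i < p) : suf p v = 0 := by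
  ext q
  rw [suf_apply]
  split_ifs with h1
  · by_contra h2
    have h3 : q ∈ v.support := Finsupp.mem_support_iff.2 h2
    have := h q h3
    omega
  · rfl

theorem suf_eq_self {p : ℕ} {v : ℕ →₀ F} (h : ∀ i ∈ v.support, p ≤ i) : suf p v = v := by
  ext q
  rw [suf_apply]
  split_ifs with h1
  · rfl
  · by_contra h2
    have h3 : q ∈ v.support := Finsupp.mem_support_iff.2 (fun h0 => h2 h0.symm)
    exact h1 (h q h3)

theorem sub_suf_apply (p : ℕ) (v : ℕ →₀ F) (q : ℕ) :
    (v - suf p v) q = if p ≤ q then 0 else v q := by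
  rw [Finsupp.sub_apply, suf_apply]
  split_ifs <;> simp

theorem mem_support_sub_suf {p q : ℕ} {v : ℕ →₀ F} :
    q ∈ (v - suf p v).support ↔ q < p ∧ q ∈ v.support := by
  rw [Finsupp.mem_support_iff, Finsupp.mem_support_iff, sub_suf_apply]
  split_ifs with h
  · simp [h]
  · simp [not_le.1 h]

theorem below_sub_suf (p : ℕ) (v : ℕ →₀ F) : Below (v - suf p v) (suf p v) := by
  intro i hi j hj
  rw [mem_support_sub_suf] at hi
  rw [mem_support_suf] at hj
  omega

theorem Below.disj {x y : ℕ →₀ F} (h : Below x y) : Disjoint x.support y.support := by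
  rw [Finset.disjoint_left]
  intro i hi hj
  exact lt_irrefl _ (h i hi i hj)

theorem Below.support_add {x y : ℕ →₀ F} (h : Below x y) :
    (x + y).support = x.support ∪ y.support := by
  classical
  rw [Finsupp.support_add_eq h.disj]

theorem Below.apply_left {x y : ℕ →₀ F} (h : Below x y) {i : ℕ} (hi : i ∈ x.support) :
    (x + y) i = x i := by
  have : y i = 0 := by
    by_contra h0
    exact lt_irrefl _ (h i hi i (Finsupp.mem_support_iff.2 h0))
  rw [Finsupp.add_apply, this, add_zero]

theorem Below.apply_right {x y : ℕ →₀ F} (h : Below x y) {i : ℕ} (hi : i ∈ y.support) :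
    (x + y) i = y i := by
  have : x i = 0 := by
    by_contra h0
    exact lt_irrefl _ (h i (Finsupp.mem_support_iff.2 h0) i hi)
  rw [Finsupp.add_apply, this, zero_add]

/-- `i` starts a run of `v`. -/
def IsStart (v : ℕ →₀ F) (i : ℕ) : Prop :=
  ∀ j ∈ v.support, j < i → (∀ l ∈ v.support, l < i → l ≤ j) → v j ≠ v i

open Classical in
/-- The number of runs of `v`. -/
noncomputable def R (v : ℕ →₀ F) : ℕ := (v.support.filter (IsStart v)).card

/-- The first nonzero coefficient of `v` is `a`. -/
def Fst (v : ℕ →₀ F) (a : F) : Prop := ∃ i ∈ v.support, (∀ j ∈ v.support, i ≤ j) ∧ v i = a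

/-- The last nonzero coefficient of `v` is `a`. -/
def Lst (v : ℕ →₀ F) (a : F) : Prop := ∃ i ∈ v.support, (∀ j ∈ v.support, j ≤ i) ∧ v i = a

theorem exists_fst {v : ℕ →₀ F} (h : v ≠ 0) : ∃ a, a ≠ 0 ∧ Fst v a := by
  have hne : v.support.Nonempty := Finsupp.support_nonempty_iff.2 h
  exact ⟨v (v.support.min' hne), Finsupp.mem_support_iff.1 (Finset.min'_mem _ _),
    v.support.min' hne, Finset.min'_mem _ _, fun j hj => Finset.min'_le _ j hj, rfl⟩

theorem exists_lst {v : ℕ →₀ F} (h : v ≠ 0) : ∃ a, a ≠ 0 ∧ Lst v a := by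
  have hne : v.support.Nonempty := Finsupp.support_nonempty_iff.2 h
  exact ⟨v (v.support.max' hne), Finsupp.mem_support_iff.1 (Finset.max'_mem _ _),
    v.support.max' hne, Finset.max'_mem _ _, fun j hj => Finset.le_max' _ j hj, rfl⟩

theorem Fst.ne_zero {v : ℕ →₀ F} {a : F} (h : Fst v a) : v ≠ 0 := by
  obtain ⟨i, hi, _⟩ := h
  rintro rfl
  simp at hi

theorem Lst.ne_zero {v : ℕ →₀ F} {a : F} (h : Lst v a) : v ≠ 0 := by
  obtain ⟨i, hi, _⟩ := h
  rintro rfl
  simp at hi

theorem support_smul' {c : F} (hc : c ≠ 0) (v : ℕ →₀ F) : (c • v).support = v.support := by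
  ext i
  simp [Finsupp.mem_support_iff, hc]

theorem Fst.smul {v : ℕ →₀ F} {a c : F} (hc : c ≠ 0) (h : Fst v a) : Fst (c • v) (c * a) := by
  obtain ⟨i, hi, h1, h2⟩ := h
  unfold Fst
  rw [support_smul' hc]
  exact ⟨i, hi, h1, by rw [Finsupp.smul_apply, h2, smul_eq_mul]⟩

theorem Lst.smul {v : ℕ →₀ F} {a c : F} (hc : c ≠ 0) (h : Lst v a) : Lst (c • v) (c * a) := by
  obtain ⟨i, hi, h1, h2⟩ := h
  unfold Lst
  rw [support_smul' hc]
  exact ⟨i, hi, h1, by rw [Finsupp.smul_apply, h2, smul_eq_mul]⟩

theorem Below.fst {x y : ℕ →₀ F} (h : Below x y) {a : F} (hx : Fst x a) : Fst (x + y) a := by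
  obtain ⟨i, hi, h1, h2⟩ := hx
  refine ⟨i, ?_, ?_, ?_⟩
  · rw [h.support_add]; exact Finset.mem_union_left _ hi
  · intro j hj
    rw [h.support_add, Finset.mem_union] at hj
    rcases hj with hj | hj
    · exact h1 j hj
    · exact (h i hi j hj).le
  · rw [h.apply_left hi, h2]

theorem Below.lst {x y : ℕ →₀ F} (h : Below x y) {a : F} (hy : Lst y a) : Lst (x + y) a := by
  obtain ⟨i, hi, h1, h2⟩ := hy
  refine ⟨i, ?_, ?_, ?_⟩
  · rw [h.support_add]; exact Finset.mem_union_right _ hi
  · intro j hj
    rw [h.support_add, Finset.mem_union] at hj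
    rcases hj with hj | hj
    · exact (h j hj i hi).le
    · exact h1 j hj
  · rw [h.apply_right hi, h2]

theorem R_smul {c : F} (hc : c ≠ 0) (v : ℕ →₀ F) : R (c • v) = R v := by
  classical
  unfold R
  rw [support_smul' hc]
  congr 1
  apply Finset.filter_congr
  intro i _
  unfold IsStart
  rw [support_smul' hc]
  simp only [Finsupp.smul_apply, smul_eq_mul, ne_eq, mul_right_inj' hc]

theorem R_le_card (v : ℕ →₀ F) : R v ≤ v.support.card := by
  classical
  unfold R
  exact Finset.card_le_card (Finset.filter_subset _ _)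

theorem R_pos {v : ℕ →₀ F} (h : v ≠ 0) : 1 ≤ R v := by
  classical
  have hne : v.support.Nonempty := Finsupp.support_nonempty_iff.2 h
  unfold R
  rw [Nat.one_le_iff_ne_zero, ← Nat.pos_iff_ne_zero, Finset.card_pos]
  refine ⟨v.support.min' hne, ?_⟩
  rw [Finset.mem_filter]
  refine ⟨Finset.min'_mem _ _, fun j hj hlt => ?_⟩
  exact absurd (Finset.min'_le _ j hj) (not_le.2 hlt)

theorem isStart_left {x y : ℕ →₀ F} (h : Below x y) {i : ℕ} (hi : i ∈ x.support) :
    IsStart (x + y) i ↔ IsStart x i := by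
  unfold IsStart
  rw [h.support_add, h.apply_left hi]
  constructor
  · intro H j hj hji hl
    have h1 := H j (Finset.mem_union_left _ hj) hji (fun l hl1 hl2 => by
      rw [Finset.mem_union] at hl1
      rcases hl1 with hl1 | hl1
      · exact hl l hl1 hl2
      · exact absurd (h i hi l hl1) (not_lt.2 hl2.le))
    rwa [h.apply_left hj] at h1
  · intro H j hj hji hl
    rw [Finset.mem_union] at hj
    rcases hj with hj | hj
    · rw [h.apply_left hj]
      exact H j hj hji (fun l hl1 hl2 => hl l (Finset.mem_union_left _ hl1) hl2)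
    · exact absurd (h i hi j hj) (not_lt.2 hji.le)

theorem isStart_right {x y : ℕ →₀ F} (h : Below x y) {i i0 : ℕ} (hi : i ∈ y.support)
    (hi0 : i0 ∈ y.support) (hlt : i0 < i) : IsStart (x + y) i ↔ IsStart y i := by
  unfold IsStart
  rw [h.support_add, h.apply_right hi]
  constructor
  · intro H j hj hji hl
    have h1 := H j (Finset.mem_union_right _ hj) hji (fun l hl1 hl2 => by
      rw [Finset.mem_union] at hl1
      rcases hl1 with hl1 | hl1
      · exact (h l hl1 j hj).le
      · exact hl l hl1 hl2)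
    rwa [h.apply_right hj] at h1
  · intro H j hj hji hl
    rw [Finset.mem_union] at hj
    rcases hj with hj | hj
    · have h1 := hl i0 (Finset.mem_union_right _ hi0) hlt
      exact absurd (h j hj i0 hi0) (not_lt.2 h1)
    · rw [h.apply_right hj]
      exact H j hj hji (fun l hl1 hl2 => hl l (Finset.mem_union_right _ hl1) hl2)

open Classical in
theorem R_add_split {x y : ℕ →₀ F} (h : Below x y) :
    R (x + y) = R x + (y.support.filter (IsStart (x + y))).card := by
  unfold R
  rw [h.support_add, Finset.filter_union, Finset.card_union_of_disjoint]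
  · congr 2
    apply Finset.filter_congr
    intro i hi
    exact isStart_left h hi
  · exact Finset.disjoint_filter_filter h.disj

theorem R_add_ne {x y : ℕ →₀ F} (h : Below x y) {a b : F} (hx : Lst x a) (hy : Fst y b)
    (hab : a ≠ b) : R (x + y) = R x + R y := by
  classical
  rw [R_add_split h]
  congr 1
  unfold R
  congr 1
  apply Finset.filter_congr
  intro i hi
  obtain ⟨i0, hi0, h1, h2⟩ := hy
  rcases (h1 i hi).lt_or_eq with hlt | rfl
  · exact isStart_right h hi hi0 hlt
  · refine iff_of_true ?_ ?_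
    · intro j hj hji hl
      rw [h.support_add, Finset.mem_union] at hj
      rcases hj with hj | hj
      · obtain ⟨k, hk, h3, h4⟩ := hx
        have h5 := hl k (by rw [h.support_add]; exact Finset.mem_union_left _ hk) (h k hk _ hi)
        have h6 : j = k := le_antisymm (h3 j hj) h5
        rw [h.apply_right hi, h.apply_left hj, h2, h6, h4]
        exact hab
      · exact absurd (h1 j hj) (not_le.2 hji)
    · intro j hj hji _
      exact absurd (h1 j hj) (not_le.2 hji)

theorem R_add_eq {x y : ℕ →₀ F} (h : Below x y) {a : F} (hx : Lst x a) (hy : Fst y a) :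
    R (x + y) + 1 = R x + R y := by
  classical
  rw [R_add_split h, add_assoc]
  congr 1
  obtain ⟨i0, hi0, h1, h2⟩ := hy
  have e : y.support.filter (IsStart (x + y)) = (y.support.filter (IsStart y)).erase i0 := by
    ext i
    rw [Finset.mem_filter, Finset.mem_erase, Finset.mem_filter]
    constructor
    · rintro ⟨hi, hs⟩
      rcases (h1 i hi).lt_or_eq with hlt | rfl
      · exact ⟨hlt.ne', hi, (isStart_right h hi hi0 hlt).1 hs⟩
      · exfalso
        obtain ⟨k, hk, h3, h4⟩ := hx
        refine hs k (by rw [h.support_add]; exact Finset.mem_union_left _ hk) (h k hk _ hi) ?_ ?_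
        · intro l hl hlt
          rw [h.support_add, Finset.mem_union] at hl
          rcases hl with hl | hl
          · exact h3 l hl
          · exact absurd (h1 l hl) (not_le.2 hlt)
        · rw [h.apply_right hi, h.apply_left hk, h2, h4]
    · rintro ⟨hne, hi, hs⟩
      have hlt : i0 < i := lt_of_le_of_ne (h1 i hi) (Ne.symm hne)
      exact ⟨hi, (isStart_right h hi hi0 hlt).2 hs⟩
  have hmem : i0 ∈ y.support.filter (IsStart y) := by
    rw [Finset.mem_filter]
    exact ⟨hi0, fun j hj hji _ => absurd (h1 j hj) (not_le.2 hji)⟩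
  rw [e, Finset.card_erase_add_one hmem]
  unfold R
  congr

theorem R_add_bounds {x y : ℕ →₀ F} (h : Below x y) (hx : x ≠ 0) (hy : y ≠ 0) :
    R x + R y ≤ R (x + y) + 1 ∧ R (x + y) ≤ R x + R y := by
  obtain ⟨a, _, ha⟩ := exists_lst hx
  obtain ⟨b, _, hb⟩ := exists_fst hy
  by_cases hab : a = b
  · subst hab
    have := R_add_eq h ha hb
    omega
  · have := R_add_ne h ha hb hab
    omega

theorem R_zero : R (0 : ℕ →₀ F) = 0 := by
  simp [R]

theorem R_sub_suf_le (p : ℕ) (v : ℕ →₀ F) : R (v - suf p v) ≤ R v := by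
  by_cases h1 : v - suf p v = 0
  · rw [h1, R_zero]; exact Nat.zero_le _
  by_cases h2 : suf p v = 0
  · rw [h2, sub_zero]
  have h3 := R_add_bounds (below_sub_suf p v) h1 h2
  rw [sub_add_cancel] at h3
  have := R_pos h2
  omega

/-- The largest element of the support (or zero). -/
def hi (v : ℕ →₀ F) : ℕ := v.support.sup id

theorem le_hi {v : ℕ →₀ F} {i : ℕ} (h : i ∈ v.support) : i ≤ hi v :=
  Finset.le_sup (f := id) h

theorem hi_mem {v : ℕ →₀ F} (h : v ≠ 0) : hi v ∈ v.support := by
  have hne : v.support.Nonempty := Finsupp.support_nonempty_iff.2 h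
  obtain ⟨i, hi1, hi2⟩ := Finset.exists_mem_eq_sup v.support hne id
  unfold hi
  rw [hi2]
  exact hi1

theorem hi_eq {v : ℕ →₀ F} {i : ℕ} (h : i ∈ v.support) (h' : ∀ j ∈ v.support, j ≤ i) :
    hi v = i :=
  le_antisymm (Finset.sup_le h') (le_hi h)

theorem card_suf_lt {p : ℕ} {v : ℕ →₀ F} (h : suf p v ≠ v) :
    (suf p v).support.card < v.support.card := by
  apply Finset.card_lt_card
  rw [Finset.ssubset_iff_subset_ne]
  refine ⟨fun i hi => (mem_support_suf.1 hi).2, fun he => h ?_⟩
  refine suf_eq_self fun i hi => ?_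
  rw [← he] at hi
  exact (mem_support_suf.1 hi).1

/-- Values of a vector of a span. -/
theorem span_apply_eq_zero {l : Set (ℕ →₀ F)} {q : ℕ} (h : ∀ t ∈ l, t q = 0) {s : ℕ →₀ F}
    (hs : s ∈ Submodule.span F l) : s q = 0 := by
  induction hs using Submodule.span_induction with
  | mem x hx => exact h x hx
  | zero => rfl
  | add x y _ _ hx hy => rw [Finsupp.add_apply, hx, hy, add_zero]
  | smul a x _ hx => rw [Finsupp.smul_apply, hx, smul_zero]

theorem below_span {l : Set (ℕ →₀ F)} {b : ℕ →₀ F} (h : ∀ t ∈ l, Below t b) {s : ℕ →₀ F}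
    (hs : s ∈ Submodule.span F l) : Below s b := by
  intro i hi j hj
  by_contra hlt
  refine Finsupp.mem_support_iff.1 hi (span_apply_eq_zero (fun t ht => ?_) hs)
  by_contra h0
  exact hlt (h t ht i (Finsupp.mem_support_iff.2 h0) j hj)

/-- The span of the members of a list. -/
noncomputable def lspan (l : List (ℕ →₀ F)) : Submodule F (ℕ →₀ F) := Submodule.span F {t | t ∈ l}

/-- The total size of the supports of a list. -/
def S (l : List (ℕ →₀ F)) : ℕ := (l.map fun t => t.support.card).sum

theorem lspan_cons (x : ℕ →₀ F) (l : List (ℕ →₀ F)) {u : ℕ →₀ F} (h : u ∈ lspan (x :: l)) :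
    ∃ c : F, ∃ s ∈ lspan l, u = c • x + s := by
  have e : {t | t ∈ x :: l} = insert x {t | t ∈ l} := by
    ext t
    simp
  unfold lspan at h
  rw [e, Submodule.mem_span_insert] at h
  exact h

theorem lspan_concat (x : ℕ →₀ F) (l : List (ℕ →₀ F)) {u : ℕ →₀ F} (h : u ∈ lspan (l ++ [x])) :
    ∃ c : F, ∃ s ∈ lspan l, u = c • x + s := by
  have e : {t | t ∈ l ++ [x]} = insert x {t | t ∈ l} := by
    ext t
    simp [or_comm]
  unfold lspan at h
  rw [e, Submodule.mem_span_insert] at h
  exact h

theorem card_le_S {l : List (ℕ →₀ F)} {u : ℕ →₀ F} (h : u ∈ lspan l) :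
    u.support.card ≤ S l := by
  classical
  induction l generalizing u with
  | nil =>
    have : u = 0 := by
      unfold lspan at h
      simpa using h
    subst this
    simp
  | cons x l ih =>
    obtain ⟨c, s, hs, rfl⟩ := lspan_cons x l h
    have h1 : S (x :: l) = x.support.card + S l := by simp [S]
    rw [h1]
    calc (c • x + s).support.card ≤ ((c • x).support ∪ s.support).card :=
          Finset.card_le_card Finsupp.support_add
      _ ≤ (c • x).support.card + s.support.card := Finset.card_union_le _ _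
      _ ≤ x.support.card + S l :=
          Nat.add_le_add (Finset.card_le_card Finsupp.support_smul) (ih hs)

theorem mem_le_S {l : List (ℕ →₀ F)} {u : ℕ →₀ F} (h : u ∈ l) : u.support.card ≤ S l :=
  card_le_S (Submodule.subset_span h)

/-- Nonzero vectors of the span of a list have a top index. -/
theorem exists_top {l : List (ℕ →₀ F)} {u : ℕ →₀ F} (h : u ∈ lspan l) (h0 : u ≠ 0) :
    ∃ k, ∃ hk : k < l.length, ∃ c : F, c ≠ 0 ∧ ∃ s ∈ lspan (l.take k), u = s + c • l[k] := by
  revert u
  induction l using List.reverseRecOn with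
  | nil =>
    intro u h h0
    exfalso
    apply h0
    unfold lspan at h
    simpa using h
  | append_singleton l x ih =>
    intro u h h0
    obtain ⟨c, s, hs, hu⟩ := lspan_concat x l h
    by_cases hc : c = 0
    · rw [hc, zero_smul, zero_add] at hu
      subst hu
      obtain ⟨k, hk, c, hc, s', hs', he⟩ := ih hs h0
      refine ⟨k, by simp; omega, c, hc, s', ?_, ?_⟩
      · rwa [List.take_append_of_le_length hk.le]
      · rw [List.getElem_append_left hk]
        exact he
    · refine ⟨l.length, by simp, c, hc, s, ?_, ?_⟩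
      · simpa using hs
      · rw [hu]
        simp [add_comm]

/-- An infinite-dimensional subspace contains nonzero vectors arbitrarily far out. -/
theorem exists_far {X : Submodule F (ℕ →₀ F)} (hX : ¬ FiniteDimensional F X) (m : ℕ) :
    ∃ v ∈ X, v ≠ 0 ∧ ∀ i ∈ v.support, m ≤ i := by
  classical
  by_contra hno
  push Not at hno
  apply hX
  let p : X →ₗ[F] (Fin m → F) :=
    { toFun := fun v i => (v : ℕ →₀ F) i
      map_add' := fun u v => by funext i; simp
      map_smul' := fun a v => by funext i; simp }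
  have hp : Function.Injective p := by
    rw [injective_iff_map_eq_zero]
    intro v hv
    by_contra hv0
    obtain ⟨i, hi, hlt⟩ := hno v v.2 (fun h0 => hv0 (Subtype.ext h0))
    have h1 : p v ⟨i, hlt⟩ = 0 := by rw [hv]; rfl
    rw [Finsupp.mem_support_iff] at hi
    exact hi h1
  exact FiniteDimensional.of_injective p hp

/-- A subspace that contains nonzero vectors arbitrarily far out is infinite-dimensional. -/
theorem not_finite_of_far {X : Submodule F (ℕ →₀ F)}
    (h : ∀ m, ∃ v ∈ X, v ≠ 0 ∧ ∀ i ∈ v.support, m ≤ i) : ¬ FiniteDimensional F X := by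
  intro hX
  have hfg : X.FG := Module.Finite.iff_fg.1 hX
  obtain ⟨G, hG⟩ := hfg
  let N := G.sup fun v => hi v
  obtain ⟨v, hv, hv0, hvN⟩ := h (N + 1)
  obtain ⟨i, hi1⟩ := Finsupp.support_nonempty_iff.2 hv0
  rw [← hG] at hv
  refine Finsupp.mem_support_iff.1 hi1 (span_apply_eq_zero (fun t ht => ?_) hv)
  by_contra h0
  have h1 := le_hi (Finsupp.mem_support_iff.2 h0)
  have h2 : hi t ≤ N := Finset.le_sup (f := fun v => hi v) ht
  have h3 := hvN i hi1
  omega

end Pool.Agent.TH782.VMad
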