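import Pool.Agent.TH782.VMad.Core

set_option autoImplicit false

/-! Coherence of the finite approximations, and maximality. -/

namespace Pool.Agent.TH782.VMad

variable {F : Type} [Field F] {seq : ℕ → List (ℕ →₀ F)}

theorem chain {E : Type} [Inhabited E] (l : ℕ → List E)
    (h1 : ∀ i, l i = (l (i + 1)).take (l i).length) (h2 : ∀ i, i ≤ (l i).length) :
    ∃ a : ℕ → E, ∀ i, l i = (List.range (l i).length).map a := by
  have h3 : ∀ i j, i ≤ j → l i = (l j).take (l i).length := by
    intro i j hij
    induction j, hij using Nat.le_induction with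
    | base => simp
    | succ j _ ih =>
      have h4 := h1 j
      have h5 : (l i).length ≤ (l j).length := by
        have := congrArg List.length ih
        rw [List.length_take] at this
        omega
      calc l i = (l j).take (l i).length := ih
        _ = ((l (j + 1)).take (l j).length).take (l i).length := by rw [← h4]
        _ = (l (j + 1)).take (l i).length := by rw [List.take_take, min_eq_left h5]
  have h4 : ∀ i j k, i ≤ j → k < (l i).length → (l i)[k]? = (l j)[k]? := by
    intro i j k hij hk
    rw [h3 i j hij]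
    rw [List.getElem?_take_of_lt hk]
  refine ⟨fun k => ((l (k + 1))[k]?).getD default, fun i => ?_⟩
  apply List.ext_getElem?
  intro k
  by_cases hk : k < (l i).length
  · have h5 : (l i)[k]? = (l (k + 1))[k]? := by
      rcases le_total i (k + 1) with h6 | h6
      · exact h4 i (k + 1) k h6 hk
      · have := h2 (k + 1)
        exact (h4 (k + 1) i k h6 (by omega)).symm
    have h7 : k < (l (k + 1)).length := by
      have := h2 (k + 1)
      omega
    rw [h5, List.getElem?_map, List.getElem?_range hk, List.getElem?_eq_getElem h7]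
    simp [List.getElem?_eq_getElem h7]
  · rw [List.getElem?_eq_none (not_lt.1 hk), List.getElem?_eq_none (by simpa using hk)]

theorem coherence {D : ℕ → (ℕ →₀ F)} {m0 : ℕ} (hD0 : ∀ i, D i ≠ 0)
    (hDm : ∀ i, ∀ q ∈ (D i).support, m0 ≤ q) (hDB : ∀ i j, i < j → Below (D i) (D j))
    (H : ∀ n, ∃ g, Good seq g ∧ ∀ i < n, ∃ s ∈ lspan g, ∀ q, m0 ≤ q → s q = D i q) :
    ∃ a, GSeq seq a ∧ ∀ i, m0 ≤ i → ∃ s ∈ Submodule.span F (Set.range a),
      ∀ q, m0 ≤ q → s q = D i q := by
  classical
  choose g hg s hs hsq using H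
  have hmem : ∀ n i (h : i < n), ∀ q ∈ (D i).support, q ∈ (s n i h).support := by
    intro n i h q hq
    rw [Finsupp.mem_support_iff, hsq n i h q (hDm i q hq)]
    exact Finsupp.mem_support_iff.1 hq
  have hs0 : ∀ n i (h : i < n), s n i h ≠ 0 := by
    intro n i h h2
    have h3 := hmem n i h _ (hi_mem (hD0 i))
    rw [h2] at h3
    simp at h3
  choose k hk c hc s' hs' he using fun n i (h : i < n) => exists_top (hs n i h) (hs0 n i h)
  have hhi : ∀ n i (h : i < n), hi (s n i h) = hi (D i) := by
    intro n i h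
    apply hi_eq (hmem n i h _ (hi_mem (hD0 i)))
    intro j hj
    by_contra hlt
    rw [not_le] at hlt
    have h2 := hDm i _ (hi_mem (hD0 i))
    rw [Finsupp.mem_support_iff, hsq n i h j (by omega), ← Finsupp.mem_support_iff] at hj
    have := le_hi hj
    omega
  have hbt : ∀ n i (h : i < n), Below (s' n i h) ((g n)[k n i h]'(hk n i h)) := fun n i h =>
    (hg n).below_take (hk n i h) (hs' n i h)
  have hhi2 : ∀ n i (h : i < n), hi (D i) = hi ((g n)[k n i h]'(hk n i h)) := by
    intro n i h
    rw [← hhi n i h]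
    rw [he n i h]
    exact below_hi (hbt n i h) ((hg n).ne_zero (hk n i h)) (hc n i h)
  have hkmono : ∀ n i j (h : i < n) (h' : j < n), i < j → k n i h < k n j h' := by
    intro n i j h h' hij
    by_contra hle
    rw [not_lt] at hle
    have h2 := (hg n).hi_le hle (hk n i h)
    rw [← hhi2 n i h, ← hhi2 n j h'] at h2
    have h3 := hDB i j hij _ (hi_mem (hD0 i)) _ (hi_mem (hD0 j))
    omega
  have hkge : ∀ i n (h : i < n), i ≤ k n i h := by
    intro i
    induction i with
    | zero => intro n h; exact Nat.zero_le _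
    | succ i ih =>
      intro n h
      have h2 := ih n (by omega)
      have h3 := hkmono n i (i + 1) (by omega) h (by omega)
      omega
  have key : ∀ n i (h : i < n), m0 ≤ i → ∃ p, suf p (D i) = c n i h • ((g n)[k n i h]'(hk n i h)) := by
    intro n i h hi
    obtain ⟨p, hp, _, hpe⟩ := below_suf (hbt n i h) ((hg n).ne_zero (hk n i h)) (hc n i h)
    rw [← he n i h] at hpe
    refine ⟨p, ?_⟩
    rw [← hpe]
    have h2 := (hg n).le_support (hk n i h) p hp
    have h3 := hkge i n h
    ext q
    rw [suf_apply, suf_apply]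
    split_ifs with h4
    · rw [hsq n i h q (by omega)]
    · rfl
  have huniq : ∀ i n n' (h : i < n) (h' : i < n'), m0 ≤ i →
      (g n).take (k n i h) = (g n').take (k n' i h') := by
    intro i n n' h h' hi
    obtain ⟨p, hp⟩ := key n i h hi
    obtain ⟨p', hp'⟩ := key n' i h' hi
    have e1 : sg seq (suf p (D i)) = (g n).take (k n i h) := by
      rw [hp, sg_smul (hc n i h), (hg n _ (hk n i h)).2]
    have e2 : sg seq (suf p' (D i)) = (g n').take (k n' i h') := by
      rw [hp', sg_smul (hc n' i h'), (hg n' _ (hk n' i h')).2]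
    have e3 : suf p (D i) = suf p' (D i) := by
      refine uniq (seq := seq) (m := m0) (s := s' n i h) (s' := s' n' i h') ?_ ?_ ?_ ?_ ?_ ?_ ?_ ?_
      · rw [hp]; exact (hg n _ (hk n i h)).1.smul (hc n i h)
      · intro q hq
        exact hDm i q (mem_support_suf.1 hq).2
      · rw [hp']; exact (hg n' _ (hk n' i h')).1.smul (hc n' i h')
      · intro q hq
        exact hDm i q (mem_support_suf.1 hq).2
      · rw [e1]; exact hs' n i h
      · intro q hq
        have e4 : s n i h - suf p (D i) = s' n i h := by
          rw [hp]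
          nth_rewrite 1 [he n i h]
          rw [add_sub_cancel_right]
        rw [← e4, Finsupp.sub_apply, Finsupp.sub_apply, hsq n i h q hq]
      · rw [e2]; exact hs' n' i h'
      · intro q hq
        have e4 : s n' i h' - suf p' (D i) = s' n' i h' := by
          rw [hp']
          nth_rewrite 1 [he n' i h']
          rw [add_sub_cancel_right]
        rw [← e4, Finsupp.sub_apply, Finsupp.sub_apply, hsq n' i h' q hq]
    rw [← e1, ← e2, e3]
  have hlen : ∀ n i (h : i < n), ((g n).take (k n i h)).length = k n i h := by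
    intro n i h
    rw [List.length_take, min_eq_left (hk n i h).le]
  let l : ℕ → List (ℕ →₀ F) := fun i =>
    (g (m0 + i + 1)).take (k (m0 + i + 1) (m0 + i) (by omega))
  have hl : ∀ i n (h : m0 + i < n), l i = (g n).take (k n (m0 + i) h) := fun i n h =>
    huniq _ _ _ _ _ (by omega)
  have hl1 : ∀ i, l i = (l (i + 1)).take (l i).length := by
    intro i
    have e1 := hl i (m0 + i + 2) (by omega)
    have e2 : l (i + 1) = _ := hl (i + 1) (m0 + i + 2) (by omega)
    have e3 := hkmono (m0 + i + 2) (m0 + i) (m0 + (i + 1)) (by omega) (by omega) (by omega)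
    rw [e2, e1, hlen, List.take_take, min_eq_left e3.le]
  have hl2 : ∀ i, i ≤ (l i).length := by
    intro i
    have e1 : (l i).length = k (m0 + i + 1) (m0 + i) (by omega) := hlen _ _ (by omega)
    rw [e1]
    have := hkge (m0 + i) (m0 + i + 1) (by omega)
    omega
  obtain ⟨a, ha⟩ := chain l hl1 hl2
  have hlg : ∀ i, Good seq (l i) := fun i => (hg _).take _
  refine ⟨a, ?_, ?_⟩
  · intro n
    have e1 : n < (l (n + 1)).length := hl2 (n + 1)
    have e2 := hlg (n + 1) n e1
    have e3 : (l (n + 1))[n] = a n := by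
      have e4 : (l (n + 1))[n]? = some (a n) := by
        rw [ha (n + 1), List.getElem?_map, List.getElem?_range e1]
        rfl
      rw [List.getElem?_eq_getElem e1] at e4
      exact Option.some.inj e4
    have e5 : (l (n + 1)).take n = (List.range n).map a := by
      rw [ha (n + 1), ← List.map_take, List.take_range, min_eq_left e1.le]
    rw [e3, e5] at e2
    exact e2
  · intro i hi
    obtain ⟨j, rfl⟩ := Nat.exists_eq_add_of_le hi
    refine ⟨s (m0 + j + 2) (m0 + j) (by omega), ?_, hsq _ _ _⟩
    have e1 := hl (j + 1) (m0 + j + 2) (by omega)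
    have e3 := hkmono (m0 + j + 2) (m0 + j) (m0 + (j + 1)) (by omega) (by omega) (by omega)
    have hsub : ∀ t ∈ (g (m0 + j + 2)).take (k (m0 + j + 2) (m0 + (j + 1)) (by omega)),
        t ∈ Set.range a := by
      intro t ht
      rw [← e1, ha (j + 1), List.mem_map] at ht
      obtain ⟨i, _, rfl⟩ := ht
      exact ⟨i, rfl⟩
    rw [he (m0 + j + 2) (m0 + j) (by omega)]
    refine Submodule.add_mem _ ?_ (Submodule.smul_mem _ _ (Submodule.subset_span ?_))
    · refine Submodule.span_mono ?_ (hs' (m0 + j + 2) (m0 + j) (by omega))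
      intro t ht
      refine hsub t ?_
      have ht' : t ∈ (g (m0 + j + 2)).take (k (m0 + j + 2) (m0 + j) (by omega)) := ht
      rw [List.mem_take_iff_getElem] at ht' ⊢
      obtain ⟨i, hi, hit⟩ := ht'
      exact ⟨i, by omega, hit⟩
    · refine hsub _ ?_
      rw [List.mem_take_iff_getElem]
      exact ⟨k (m0 + j + 2) (m0 + j) (by omega), by
        have := hk (m0 + j + 2) (m0 + (j + 1)) (by omega)
        omega, rfl⟩

theorem fin_low {W : Submodule F (ℕ →₀ F)} {m0 : ℕ} (h : ∀ w ∈ W, ∀ q, m0 ≤ q → w q = 0) :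
    FiniteDimensional F W := by
  by_contra hW
  obtain ⟨v, hv, hv0, hvm⟩ := exists_far hW m0
  obtain ⟨i, hi⟩ := Finsupp.support_nonempty_iff.2 hv0
  exact Finsupp.mem_support_iff.1 hi (h v hv i (hvm i hi))

/-- Every infinite-dimensional subspace has an infinite-dimensional trace on a member. -/
theorem maximal (hc : ∀ j, 2 * S (seq j) < 2 ^ j) (hsurj : ∀ l, ∃ j, seq j = l)
    {X : Submodule F (ℕ →₀ F)} (hX : ¬ FiniteDimensional F X) {α : F} (h0 : α ≠ 0)
    (h1 : α ≠ 1) :
    ∃ a, GSeq seq a ∧
      ¬ FiniteDimensional F ↥(Submodule.span F (Set.range a) ⊓ X) := by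
  by_cases hext : ∀ l, Good seq l → (∀ t ∈ l, t ∈ X) → ∃ b ∈ X, GB seq b ∧ sg seq b = l
  · obtain ⟨a, ha, haX⟩ := case_one hext
    refine ⟨a, ha, ?_⟩
    have hle : Submodule.span F (Set.range a) ≤ X := by
      rw [Submodule.span_le]
      rintro _ ⟨n, rfl⟩
      exact haX n
    rw [inf_eq_left.2 hle]
    exact ha.not_finite
  · push Not at hext
    obtain ⟨τ, hτ, _, hno⟩ := hext
    obtain ⟨j0, hj0⟩ := hsurj τ
    obtain ⟨D, m0, hDX, hD0, hDm, hDB, H⟩ := case_two_fam hc hX h0 h1 hj0 hτ hno
    obtain ⟨a, ha, hs⟩ := coherence hD0 hDm hDB H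
    refine ⟨a, ha, fun hfin => ?_⟩
    let E0 : Submodule F (ℕ →₀ F) :=
      { carrier := {w | ∀ q, m0 ≤ q → w q = 0}
        add_mem' := fun {x y} hx hy q hq => by
          rw [Finsupp.add_apply, hx q hq, hy q hq, add_zero]
        zero_mem' := fun q _ => rfl
        smul_mem' := fun c x hx q hq => by
          rw [Finsupp.smul_apply, hx q hq, smul_zero] }
    have hE0 : FiniteDimensional F E0 := fin_low (m0 := m0) fun w hw q hq => hw q hq
    set A := Submodule.span F (Set.range a) with hA
    let U : Submodule F (ℕ →₀ F) := Submodule.span F {v | ∃ i, m0 ≤ i ∧ v = D i}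
    have hUX : U ≤ X := by
      refine Submodule.span_le.2 ?_
      rintro _ ⟨i, _, rfl⟩
      exact hDX i
    have hUA : U ≤ A ⊔ E0 := by
      refine Submodule.span_le.2 ?_
      rintro _ ⟨i, hi, rfl⟩
      obtain ⟨s, hs1, hs2⟩ := hs i hi
      have e : D i = s + (D i - s) := by abel
      rw [e]
      refine Submodule.add_mem_sup hs1 ?_
      intro q hq
      rw [Finsupp.sub_apply, hs2 q hq, sub_self]
    have hU : U.FG := by
      refine Submodule.fg_of_fg_map_of_fg_inf_ker A.mkQ ?_ ?_
      · have h2 : Submodule.map A.mkQ U ≤ Submodule.map A.mkQ E0 := by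
          refine (Submodule.map_mono hUA).trans ?_
          rw [Submodule.map_sup, Submodule.mkQ_map_self, bot_sup_eq]
        have h3 : (Submodule.map A.mkQ E0).FG := (Module.Finite.iff_fg.1 hE0).map _
        have h4 : FiniteDimensional F (Submodule.map A.mkQ E0) := Module.Finite.iff_fg.2 h3
        exact Module.Finite.iff_fg.1 (Submodule.finiteDimensional_of_le h2)
      · rw [Submodule.ker_mkQ]
        have h2 : U ⊓ A ≤ A ⊓ X := le_inf inf_le_right (inf_le_left.trans hUX)
        exact Module.Finite.iff_fg.1 (Submodule.finiteDimensional_of_le h2)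
    have hfar : ∀ i, ∀ q ∈ (D i).support, i ≤ q := by
      intro i
      induction i with
      | zero => intro q _; exact Nat.zero_le q
      | succ i ih =>
        intro q hq
        have h2 := ih _ (hi_mem (hD0 i))
        have h3 := hDB i (i + 1) (by omega) _ (hi_mem (hD0 i)) q hq
        omega
    refine not_finite_of_far (X := U) (fun m => ?_) (Module.Finite.iff_fg.2 hU)
    refine ⟨D (max m m0), Submodule.subset_span ⟨_, le_max_right _ _, rfl⟩, hD0 _, ?_⟩
    intro i hi
    exact (le_max_left _ _).trans (hfar _ i hi)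

end Pool.Agent.TH782.VMad
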