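import Pool.Agent.TH782.VMad.Runs

set_option autoImplicit false

/-! The core of the proof of maximality. -/

namespace Pool.Agent.TH782.VMad

variable {F : Type} [Field F] {seq : ℕ → List (ℕ →₀ F)}

theorem Good.mem {l : List (ℕ →₀ F)} (h : Good seq l) {t : ℕ →₀ F} (ht : t ∈ l) : GB seq t := by
  obtain ⟨i, hi, rfl⟩ := List.getElem_of_mem ht
  exact (h i hi).1

theorem Good.concat {l : List (ℕ →₀ F)} (h : Good seq l) {b : ℕ →₀ F} (hb : GB seq b)
    (hs : sg seq b = l) : Good seq (l ++ [b]) := by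
  intro i hi
  rw [List.length_append, List.length_singleton] at hi
  rcases Nat.lt_or_ge i l.length with hlt | hge
  · rw [List.getElem_append_left hlt, List.take_append_of_le_length hlt.le]
    exact h i hlt
  · have : i = l.length := by omega
    subst this
    simp [hb, hs]

theorem good_nil : Good seq [] := by
  intro i hi
  simp at hi

/-- If every good list in `X` extends inside `X` then `X` contains a good sequence. -/
theorem case_one {X : Submodule F (ℕ →₀ F)}
    (hext : ∀ l, Good seq l → (∀ t ∈ l, t ∈ X) → ∃ b ∈ X, GB seq b ∧ sg seq b = l) :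
    ∃ a, GSeq seq a ∧ ∀ n, a n ∈ X := by
  classical
  choose f hfX hfG hfs using hext
  let T := {l : List (ℕ →₀ F) // Good seq l ∧ ∀ t ∈ l, t ∈ X}
  let step : T → T := fun l => ⟨l.1 ++ [f l.1 l.2.1 l.2.2],
    l.2.1.concat (hfG _ _ _) (hfs _ _ _), fun t ht => by
      rw [List.mem_append, List.mem_singleton] at ht
      rcases ht with ht | rfl
      · exact l.2.2 t ht
      · exact hfX _ _ _⟩
  let L : ℕ → T := fun n => Nat.rec ⟨[], good_nil, by simp⟩ (fun _ l => step l) n
  let a : ℕ → (ℕ →₀ F) := fun n => f (L n).1 (L n).2.1 (L n).2.2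
  have hL : ∀ n, (L n).1 = (List.range n).map a := by
    intro n
    induction n with
    | zero => rfl
    | succ n ih =>
      have e : (L (n + 1)).1 = (L n).1 ++ [a n] := rfl
      rw [e, ih, List.range_succ, List.map_append]
      rfl
  refine ⟨a, fun n => ⟨hfG _ _ _, ?_⟩, fun n => hfX _ _ _⟩
  rw [← hL n]
  exact hfs _ _ _

/-- If the good list `τ` does not extend inside `X`, then far vectors `y` of `X` capture. -/
theorem core (hc : ∀ j, 2 * S (seq j) < 2 ^ j) {X : Submodule F (ℕ →₀ F)}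
    (hX : ¬ FiniteDimensional F X) {α : F} (h0 : α ≠ 0) (h1 : α ≠ 1) {τ : List (ℕ →₀ F)} {j0 : ℕ}
    (hj0 : seq j0 = τ) (hτ : Good seq τ) {mτ : ℕ} (hmτ : ∀ t ∈ τ, ∀ i ∈ t.support, i < mτ)
    (hno : ∀ b ∈ X, GB seq b → sg seq b ≠ τ) (κ N : ℕ) :
    ∃ y ∈ X, (∀ i ∈ y.support, N ≤ i) ∧ ∀ v ∈ X, (∀ i ∈ v.support, mτ ≤ i ∧ i < N) → Lst v 1 →
      R v = κ → ∃ p, GB seq (suf p y) ∧ ∃ s ∈ lspan (sg seq (suf p y)),
        ∀ q, (∃ i ∈ v.support, i ≤ q) → s q = (v + y - suf p y) q := by
  obtain ⟨Q, hQ, hκQ⟩ : ∃ Q, j0 < Q ∧ κ < 2 ^ (Q - 1) := by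
    refine ⟨j0 + κ + 1, by omega, ?_⟩
    have h2 : κ < 2 ^ κ := Nat.lt_two_pow_self
    have h3 : 2 ^ κ ≤ 2 ^ (j0 + κ + 1 - 1) := Nat.pow_le_pow_right (by norm_num) (by omega)
    omega
  obtain ⟨K, _, H⟩ := exists_runs hX h0 h1 N (2 ^ Q)
  have hj : 0 < 2 ^ j0 := by positivity
  obtain ⟨y, hyX, hyN, hyf, hyR⟩ := H ((κ + K + 2 ^ j0 - 1) % 2 ^ Q)
    (Nat.mod_lt _ (by positivity)).le
  refine ⟨y, hyX, fun i hi => (hyN i hi).1, ?_⟩
  intro v hvX hvN hvl hvR
  by_contra hcon
  have hvy : Below v y := below_of_bound (fun i hi => (hvN i hi).2) fun i hi => (hyN i hi).1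
  have hRb : R (v + y) + 1 = κ + R y := by rw [R_add_eq hvy hvl hyf, hvR]
  have hb0 : v + y ≠ 0 := (hvy.lst (exists_lst hyf.ne_zero).choose_spec.2).ne_zero
  have hsupp : ∀ i ∈ (v + y).support, mτ ≤ i := by
    intro i hi
    rw [hvy.support_add, Finset.mem_union] at hi
    rcases hi with hi | hi
    · exact (hvN i hi).1
    · obtain ⟨k, hk, _⟩ := hvl
      have := hvN k hk
      have := (hyN i hi).1
      omega
  have hdvd : 2 ^ Q ∣ R (v + y) + 2 ^ j0 := by
    have h2 := Nat.mod_add_div (κ + K + 2 ^ j0 - 1) (2 ^ Q)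
    refine ⟨(κ + K + 2 ^ j0 - 1) / 2 ^ Q, ?_⟩
    omega
  have hsg : sg seq (v + y) = τ := by
    unfold sg
    rw [val_eq hQ hdvd (Nat.one_le_iff_ne_zero.1 (R_pos hb0)), hj0]
  refine hno (v + y) (X.add_mem hvX hyX) ?_ hsg
  rw [GB, hsg]
  refine ⟨hb0, fun t ht i hi j hj => lt_of_lt_of_le (hmτ t ht i hi) (hsupp j hj),
    fun i hi => (hτ i hi).2, fun t ht _ => hτ.mem ht, ?_⟩
  intro p hp hp0 hpg s hs hq
  have hz0 : v + y - suf p (v + y) ≠ 0 := by
    intro h2
    rw [← sub_eq_zero.1 h2] at hp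
    exact lt_irrefl _ hp
  have hbd := R_add_bounds (below_sub_suf p (v + y)) hz0 hp0
  rw [sub_add_cancel] at hbd
  have hz1 := R_pos hz0
  obtain ⟨D, hD⟩ : ∃ D, R (v + y) = R (suf p (v + y)) + D := ⟨_, (Nat.add_sub_of_le (by omega)).symm⟩
  have hcard : (v + y - suf p (v + y)).support.card ≤ S (sg seq (suf p (v + y))) := by
    refine (Finset.card_le_card ?_).trans (card_le_S hs)
    intro q hq'
    rw [Finsupp.mem_support_iff, hq q ⟨q, (mem_support_sub_suf.1 hq').2, le_rfl⟩]
    exact Finsupp.mem_support_iff.1 hq'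
  have hDle : 2 * D < 2 ^ padicValNat 2 (R (suf p (v + y))) := by
    have h2 := R_le_card (v + y - suf p (v + y))
    have h3 := hc (padicValNat 2 (R (suf p (v + y))))
    have h4 : S (sg seq (suf p (v + y))) = S (seq (padicValNat 2 (R (suf p (v + y))))) := rfl
    omega
  rcases arith hQ hdvd hD hDle pow_padicValNat_dvd with hD0 | hDQ
  · have hsg' : sg seq (suf p (v + y)) = τ := by
      rw [← hsg]
      unfold sg
      rw [hD, hD0, add_zero]
    rw [hsg'] at hs
    apply hz0
    ext q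
    by_contra h2
    have h3 : q ∈ (v + y - suf p (v + y)).support := Finsupp.mem_support_iff.2 h2
    have h4 := (mem_support_sub_suf.1 h3).2
    apply h2
    rw [← hq q ⟨q, h4, le_rfl⟩]
    refine span_apply_eq_zero (fun t ht => ?_) hs
    by_contra h5
    have h6 := hmτ t ht q (Finsupp.mem_support_iff.2 h5)
    have h7 := hsupp q h4
    omega
  · have hpN : N < p := by
      by_contra hle
      rw [not_lt] at hle
      have e : v + y - suf p (v + y) = v - suf p v := by
        rw [suf_add, suf_eq_self (v := y) fun i hi => hle.trans (hyN i hi).1]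
        abel
      have h2 := R_sub_suf_le p v
      rw [← e] at h2
      omega
    have e : suf p (v + y) = suf p y := by
      rw [suf_add, suf_eq_zero (v := v) fun i hi => (hvN i hi).2.trans hpN, zero_add]
    rw [e] at hpg hs hq
    refine hcon ⟨p, hpg, s, hs, fun q hq' => hq q ?_⟩
    obtain ⟨i, hi, hiq⟩ := hq'
    exact ⟨i, by rw [hvy.support_add]; exact Finset.mem_union_left _ hi, hiq⟩

/-- Sums of normalized blocks. -/
theorem sum_props {x : ℕ → (ℕ →₀ F)} {M : ℕ → ℕ}
    (hM : ∀ i, ∀ q ∈ (x i).support, M i ≤ q ∧ q < M (i + 1)) (h1 : ∀ i, Fst (x i) 1)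
    (h2 : ∀ i, Lst (x i) 1) (n : ℕ) :
    (∀ q ∈ (∑ i ∈ Finset.range (n + 1), x i).support, M 0 ≤ q ∧ q < M (n + 1)) ∧
    Lst (∑ i ∈ Finset.range (n + 1), x i) 1 ∧
    (∃ i ∈ (∑ i ∈ Finset.range (n + 1), x i).support, i < M 1) ∧
    R (∑ i ∈ Finset.range (n + 1), x i) + n = ∑ i ∈ Finset.range (n + 1), R (x i) := by
  have hmono : ∀ i, M i < M (i + 1) := by
    intro i
    obtain ⟨q, hq, _⟩ := h1 i
    have := hM i q hq
    omega
  induction n with
  | zero =>
    simp only [zero_add, Finset.range_one, Finset.sum_singleton]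
    refine ⟨hM 0, h2 0, ?_, by simp⟩
    obtain ⟨q, hq, _⟩ := h1 0
    exact ⟨q, hq, (hM 0 q hq).2⟩
  | succ n ih =>
    obtain ⟨a1, a2, a3, a4⟩ := ih
    rw [Finset.sum_range_succ _ (n + 1), Finset.sum_range_succ _ (n + 1)]
    set P := ∑ i ∈ Finset.range (n + 1), x i with hP
    have hb : Below P (x (n + 1)) :=
      below_of_bound (fun i hi => (a1 i hi).2) fun i hi => (hM (n + 1) i hi).1
    have hM0 : M 0 ≤ M (n + 1) := by
      obtain ⟨q, hq, _⟩ := a2
      have := a1 q hq
      omega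
    refine ⟨?_, hb.lst (h2 (n + 1)), ?_, ?_⟩
    · intro q hq
      rw [hb.support_add, Finset.mem_union] at hq
      rcases hq with hq | hq
      · have := a1 q hq
        have := hmono (n + 1)
        omega
      · have := hM (n + 1) q hq
        omega
    · obtain ⟨i, hi, hi1⟩ := a3
      exact ⟨i, by rw [hb.support_add]; exact Finset.mem_union_left _ hi, hi1⟩
    · have := R_add_eq hb a2 (h1 (n + 1))
      omega

/-- The second case: finite approximations of a trace on `X`. -/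
theorem case_two_fam (hc : ∀ j, 2 * S (seq j) < 2 ^ j) {X : Submodule F (ℕ →₀ F)}
    (hX : ¬ FiniteDimensional F X) {α : F} (h0 : α ≠ 0) (h1 : α ≠ 1) {τ : List (ℕ →₀ F)} {j0 : ℕ}
    (hj0 : seq j0 = τ) (hτ : Good seq τ) (hno : ∀ b ∈ X, GB seq b → sg seq b ≠ τ) :
    ∃ (D : ℕ → (ℕ →₀ F)) (m0 : ℕ), (∀ i, D i ∈ X) ∧ (∀ i, D i ≠ 0) ∧
      (∀ i, ∀ q ∈ (D i).support, m0 ≤ q) ∧ (∀ i j, i < j → Below (D i) (D j)) ∧
      ∀ n, ∃ g, Good seq g ∧ ∀ i < n, ∃ s ∈ lspan g, ∀ q, m0 ≤ q → s q = D i q := by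
  classical
  obtain ⟨mτ, hmτ⟩ : ∃ m, ∀ t ∈ τ, ∀ i ∈ t.support, i < m := by
    refine ⟨(τ.toFinset.sup fun t => hi t) + 1, fun t ht i hi' => Nat.lt_succ_of_le ?_⟩
    exact (le_hi hi').trans (Finset.le_sup (f := fun t => hi t) (List.mem_toFinset.2 ht))
  choose P P' hPX hPm hPm' hPn hPn' hPR hPne using fun m => exists_pair hX h0 h1 m
  let M : ℕ → ℕ := fun n => Nat.rec mτ (fun _ m => max (hi (P m)) (hi (P' m)) + 1) n
  have hMs : ∀ n, M (n + 1) = max (hi (P (M n))) (hi (P' (M n))) + 1 := fun n => rfl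
  have hM0 : M 0 = mτ := rfl
  have hMb : ∀ n, ∀ q ∈ (P (M n)).support, M n ≤ q ∧ q < M (n + 1) := by
    intro n q hq
    have h2 := hPm (M n) q hq
    have h3 := le_hi hq
    rw [hMs]
    omega
  have hMb' : ∀ n, ∀ q ∈ (P' (M n)).support, M n ≤ q ∧ q < M (n + 1) := by
    intro n q hq
    have h2 := hPm' (M n) q hq
    have h3 := le_hi hq
    rw [hMs]
    omega
  have hmono : ∀ i, M i < M (i + 1) := by
    intro i
    obtain ⟨q, hq, _⟩ := (hPn (M i)).1
    have := hMb i q hq
    omega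
  have hMono : StrictMono M := strictMono_nat_of_lt_succ hmono
  set pp : ℕ → (ℕ →₀ F) := fun n => P (M n) with hpp
  set qq : ℕ → (ℕ →₀ F) := fun n => P' (M n) with hqq
  have hDsup : ∀ i, ∀ q ∈ (pp i - qq i).support, M i ≤ q ∧ q < M (i + 1) := by
    intro i q hq
    have h2 := Finsupp.support_sub hq
    rw [Finset.mem_union] at h2
    rcases h2 with h2 | h2
    · exact hMb i q h2
    · exact hMb' i q h2
  refine ⟨fun i => pp (i + 1) - qq (i + 1), M 1, fun i => X.sub_mem (hPX _).1 (hPX _).2,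
    fun i => hPne _, ?_, ?_, ?_⟩
  · intro i q hq
    have h2 := hDsup (i + 1) q hq
    have h3 : M 1 ≤ M (i + 1) := hMono.monotone (show 1 ≤ i + 1 by omega)
    omega
  · intro i j hij a ha b hb
    have h2 := hDsup (i + 1) a ha
    have h3 := hDsup (j + 1) b hb
    have h4 : M (i + 1 + 1) ≤ M (j + 1) := hMono.monotone (show i + 1 + 1 ≤ j + 1 by omega)
    omega
  · intro n
    have hp1 : ∀ i, Fst (pp i) 1 := fun i => (hPn _).1
    have hp2 : ∀ i, Lst (pp i) 1 := fun i => (hPn _).2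
    obtain ⟨a1, a2, a3, a4⟩ := sum_props hMb hp1 hp2 n
    set V := ∑ i ∈ Finset.range (n + 1), pp i with hV
    obtain ⟨y, hyX, hyN, hy⟩ := core hc hX h0 h1 hj0 hτ hmτ hno (R V) (M (n + 1))
    have hVX : V ∈ X := X.sum_mem fun i _ => (hPX _).1
    obtain ⟨p, hpG, s, hs, hsq⟩ := hy V hVX (fun i hi' => by
      have := a1 i hi'
      rw [hM0] at this
      exact this) a2 rfl
    refine ⟨sg seq (suf p y), hpG.good hc, fun i hi' => ?_⟩
    let x : ℕ → (ℕ →₀ F) := Function.update pp (i + 1) (qq (i + 1))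
    have hx : ∀ j, x j = pp j ∨ x j = qq j := by
      intro j
      by_cases hj : j = i + 1
      · subst hj
        right
        simp [x]
      · left
        simp [x, hj]
    have hxM : ∀ j, ∀ q ∈ (x j).support, M j ≤ q ∧ q < M (j + 1) := by
      intro j
      rcases hx j with h2 | h2
      · rw [h2]; exact hMb j
      · rw [h2]; exact hMb' j
    have hx1 : ∀ j, Fst (x j) 1 := by
      intro j
      rcases hx j with h2 | h2
      · rw [h2]; exact hp1 j
      · rw [h2]; exact (hPn' _).1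
    have hx2 : ∀ j, Lst (x j) 1 := by
      intro j
      rcases hx j with h2 | h2
      · rw [h2]; exact hp2 j
      · rw [h2]; exact (hPn' _).2
    have hxR : ∀ j, R (x j) = R (pp j) := by
      intro j
      rcases hx j with h2 | h2
      · rw [h2]
      · rw [h2]; exact (hPR _).symm
    have hxX : ∀ j, x j ∈ X := by
      intro j
      rcases hx j with h2 | h2
      · rw [h2]; exact (hPX _).1
      · rw [h2]; exact (hPX _).2
    obtain ⟨b1, b2, b3, b4⟩ := sum_props hxM hx1 hx2 n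
    set W := ∑ i ∈ Finset.range (n + 1), x i with hW
    have hWR : R W = R V := by
      have : ∑ i ∈ Finset.range (n + 1), R (x i) = ∑ i ∈ Finset.range (n + 1), R (pp i) :=
        Finset.sum_congr rfl fun j _ => hxR j
      have a5 : R V + n = ∑ i ∈ Finset.range (n + 1), R (pp i) := a4
      omega
    obtain ⟨p', hpG', s', hs', hsq'⟩ := hy W (X.sum_mem fun i _ => hxX i) (fun i hi' => by
      have := b1 i hi'
      rw [hM0] at this
      exact this) b2 hWR
    have hVlow : ∀ q, M (n + 1) ≤ q → V q = 0 := by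
      intro q hq
      by_contra h2
      have := a1 q (Finsupp.mem_support_iff.2 h2)
      omega
    have hWlow : ∀ q, M (n + 1) ≤ q → W q = 0 := by
      intro q hq
      by_contra h2
      have := b1 q (Finsupp.mem_support_iff.2 h2)
      omega
    obtain ⟨k1, hk1, hk1'⟩ := a3
    obtain ⟨k2, hk2, hk2'⟩ := b3
    have hM1n : M 1 ≤ M (n + 1) := hMono.monotone (show 1 ≤ n + 1 by omega)
    have key : suf p y = suf p' y := by
      refine uniq (m := M (n + 1)) (s := s) (s' := s') hpG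
        (fun i hi' => hyN i (mem_support_suf.1 hi').2) hpG'
        (fun i hi' => hyN i (mem_support_suf.1 hi').2) hs (fun q hq => ?_) hs' (fun q hq => ?_)
      · rw [hsq q ⟨k1, hk1, by omega⟩, add_sub_assoc, Finsupp.add_apply, hVlow q hq, zero_add]
      · rw [hsq' q ⟨k2, hk2, by omega⟩, add_sub_assoc, Finsupp.add_apply, hWlow q hq, zero_add]
    refine ⟨s - s', ?_, fun q hq => ?_⟩
    · refine Submodule.sub_mem _ hs ?_
      rw [key]
      exact hs'
    · have hd : V - W = pp (i + 1) - qq (i + 1) := by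
        rw [hV, hW, ← Finset.sum_sub_distrib, Finset.sum_eq_single (i + 1)]
        · simp [x]
        · intro j _ hj
          simp [x, hj]
        · intro hj
          exfalso
          apply hj
          rw [Finset.mem_range]
          omega
      rw [Finsupp.sub_apply, hsq q ⟨k1, hk1, by omega⟩, hsq' q ⟨k2, hk2, by omega⟩, ← key,
        ← Finsupp.sub_apply]
      have e : V + y - suf p y - (W + y - suf p y) = V - W := by abel
      rw [e, hd]

end Pool.Agent.TH782.VMad
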