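import Pool.Agent.TH782.VMad.Coh

set_option autoImplicit false

/-!
# Trees branching along an ultrafilter

Every analytic set of sequences contains all branches, or no branch, of some tree that branches
along a given ultrafilter.
-/

namespace Pool.Agent.TH782.VMad

section

variable {E : Type}

/-- The initial segment of length `n`. -/
def ini (f : ℕ → E) (n : ℕ) : List E := (List.range n).map f

theorem ini_length (f : ℕ → E) (n : ℕ) : (ini f n).length = n := by
  simp [ini]

theorem ini_succ (f : ℕ → E) (n : ℕ) : ini f (n + 1) = ini f n ++ [f n] := by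
  simp [ini, List.range_succ]

theorem ini_zero (f : ℕ → E) : ini f 0 = [] := rfl

theorem ini_take (f : ℕ → E) {k n : ℕ} (h : k ≤ n) : (ini f n).take k = ini f k := by
  unfold ini
  rw [← List.map_take, List.take_range, min_eq_left h]

theorem ini_get (f : ℕ → E) {k n : ℕ} (h : k < n) :
    (ini f n)[k]'(by rw [ini_length]; exact h) = f k := by
  simp [ini]

theorem ini_mono {f g : ℕ → E} {k n : ℕ} (h : k ≤ n) (he : ini f n = ini g n) :
    ini f k = ini g k := by
  rw [← ini_take f h, ← ini_take g h, he]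

/-- Branches of `σ` through `s`. -/
def Br (σ : List E → Set E) (s : List E) : Set (ℕ → E) :=
  {f | ini f s.length = s ∧ ∀ n, s.length ≤ n → f n ∈ σ (ini f n)}

variable (U : Ultrafilter E)

/-- Some tree through `s` that branches along `U` has all its branches in `P`. -/
def Force (P : (ℕ → E) → Prop) (s : List E) : Prop :=
  ∃ σ : List E → Set E, (∀ u, σ u ∈ U) ∧ ∀ f ∈ Br σ s, P f

variable {U}

theorem Force.mono {P Q : (ℕ → E) → Prop} {s : List E} (h : Force U P s) (hPQ : ∀ f, P f → Q f) :
    Force U Q s := by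
  obtain ⟨σ, h1, h2⟩ := h
  exact ⟨σ, h1, fun f hf => hPQ f (h2 f hf)⟩

theorem force_of {P : (ℕ → E) → Prop} {s : List E} (h : ∀ f, ini f s.length = s → P f) :
    Force U P s :=
  ⟨fun _ => Set.univ, fun _ => Filter.univ_mem, fun f hf => h f hf.1⟩

theorem glue {P : (ℕ → E) → Prop} {s : List E} (h : {x | Force U P (s ++ [x])} ∈ U) :
    Force U P s := by
  classical
  have key : ∀ x, ∃ τ : List E → Set E, (∀ u, τ u ∈ U) ∧
      (Force U P (s ++ [x]) → ∀ f ∈ Br τ (s ++ [x]), P f) := by
    intro x
    by_cases hx : Force U P (s ++ [x])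
    · obtain ⟨τ, h1, h2⟩ := hx
      exact ⟨τ, h1, fun _ => h2⟩
    · exact ⟨fun _ => Set.univ, fun _ => Filter.univ_mem, fun h => absurd h hx⟩
  choose τ hτ hτP using key
  refine ⟨fun u => if hu : s.length < u.length then τ (u[s.length]) u else
    {x | Force U P (s ++ [x])}, fun u => ?_, fun f hf => ?_⟩
  · dsimp only
    split_ifs
    · exact hτ _ _
    · exact h
  · have h1 : f s.length ∈ {x | Force U P (s ++ [x])} := by
      have h2 := hf.2 s.length le_rfl
      dsimp only at h2
      rw [dif_neg (by rw [ini_length]; omega)] at h2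
      exact h2
    refine hτP (f s.length) h1 f ⟨?_, fun n hn => ?_⟩
    · rw [List.length_append, List.length_singleton, ini_succ, hf.1]
    · rw [List.length_append, List.length_singleton] at hn
      have h2 := hf.2 n (by omega)
      dsimp only at h2
      rw [dif_pos (by rw [ini_length]; omega), ini_get f (by omega)] at h2
      exact h2

theorem diag {P : ℕ → (ℕ → E) → Prop} {s : List E} {σ0 : List E → Set E} (h0 : ∀ u, σ0 u ∈ U)
    (h : ∀ f ∈ Br σ0 s, ∀ n, s.length ≤ n → ∀ i, Force U (P i) (ini f n)) :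
    Force U (fun f => ∀ i, P i f) s := by
  classical
  have key : ∀ i u, ∃ τ : List E → Set E, (∀ v, τ v ∈ U) ∧
      (Force U (P i) u → ∀ f ∈ Br τ u, P i f) := by
    intro i u
    by_cases hx : Force U (P i) u
    · obtain ⟨τ, h1, h2⟩ := hx
      exact ⟨τ, h1, fun _ => h2⟩
    · exact ⟨fun _ => Set.univ, fun _ => Filter.univ_mem, fun h => absurd h hx⟩
  choose τ hτ hτP using key
  refine ⟨fun u => σ0 u ∩ ⋂ i ∈ Set.Iic u.length, τ i (u.take (max i s.length)) u,
    fun u => ?_, fun f hf => ?_⟩
  · exact Filter.inter_mem (h0 u) ((Filter.biInter_mem (Set.finite_Iic _)).2 fun i _ => hτ _ _ _)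
  · have hf0 : f ∈ Br σ0 s := ⟨hf.1, fun n hn => (hf.2 n hn).1⟩
    intro i
    refine hτP i (ini f (max i s.length)) (h f hf0 _ (le_max_right _ _) i) f ⟨?_, fun n hn => ?_⟩
    · rw [ini_length]
    · rw [ini_length] at hn
      have h2 := (hf.2 n ((le_max_right _ _).trans hn)).2
      rw [Set.mem_iInter₂] at h2
      have h3 := h2 i (by
        rw [Set.mem_Iic, ini_length]
        exact (le_max_left _ _).trans hn)
      rwa [ini_take f hn] at h3

theorem not_force_open {D : Set (List E)} {s : List E} {m : ℕ} (hm : m ≤ s.length)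
    (h : ¬ Force U (fun f => ∃ n, m ≤ n ∧ ini f n ∈ D) s) :
    ∃ σ : List E → Set E, (∀ u, σ u ∈ U) ∧ ∀ f ∈ Br σ s, ∀ n, s.length ≤ n → ini f n ∉ D := by
  classical
  let B : List E → Prop := Force U (fun f => ∃ n, m ≤ n ∧ ini f n ∈ D)
  refine ⟨fun u => {x | B u ∨ ¬ B (u ++ [x])}, fun u => ?_, fun f hf => ?_⟩
  · by_cases hu : B u
    · have e : {x | B u ∨ ¬ B (u ++ [x])} = Set.univ := by
        ext x
        simp [hu]
      dsimp only
      rw [e]
      exact Filter.univ_mem
    · have h1 : {x | B (u ++ [x])} ∉ U := fun h2 => hu (glue h2)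
      have h2 := Ultrafilter.compl_mem_iff_notMem.2 h1
      refine Filter.mem_of_superset h2 fun x hx => Or.inr hx
  · have h1 : ∀ n, s.length ≤ n → ¬ B (ini f n) := by
      intro n hn
      induction n, hn using Nat.le_induction with
      | base => rw [hf.1]; exact h
      | succ n hn ih =>
        rcases hf.2 n hn with h2 | h2
        · exact absurd h2 ih
        · rwa [ini_succ]
    intro n hn hD
    refine h1 n hn (force_of fun g hg => ⟨n, hm.trans hn, ?_⟩)
    rw [ini_length] at hg
    rwa [hg]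

open Classical in
/-- The state reached after a list (given in reverse order). -/
noncomputable def stR (Q : List E → List ℕ → Prop) : List E → List E × List ℕ
  | [] => ([], [])
  | x :: r =>
    if h : ∃ i, Q (x :: r).reverse ((stR Q r).2 ++ [i]) then
      ((x :: r).reverse, (stR Q r).2 ++ [h.choose])
    else stR Q r

/-- The state reached after a list. -/
noncomputable def st (Q : List E → List ℕ → Prop) (u : List E) : List E × List ℕ :=
  stR Q u.reverse

theorem st_nil (Q : List E → List ℕ → Prop) : st Q [] = ([], []) := by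
  simp [st, stR]

theorem st_pos {Q : List E → List ℕ → Prop} {u : List E} {x : E}
    (h : ∃ i, Q (u ++ [x]) ((st Q u).2 ++ [i])) :
    ∃ i, Q (u ++ [x]) ((st Q u).2 ++ [i]) ∧ st Q (u ++ [x]) = (u ++ [x], (st Q u).2 ++ [i]) := by
  have e : (u ++ [x]).reverse = x :: u.reverse := by simp
  have e2 : (x :: u.reverse).reverse = u ++ [x] := by simp
  unfold st at h ⊢
  rw [e, stR]
  have h' : ∃ i, Q (x :: u.reverse).reverse ((stR Q u.reverse).2 ++ [i]) := by
    rw [e2]
    exact h
  rw [dif_pos h']
  refine ⟨h'.choose, ?_, ?_⟩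
  · have h2 := h'.choose_spec
    nth_rewrite 1 [e2] at h2
    exact h2
  · exact Prod.ext e2 rfl

theorem st_neg {Q : List E → List ℕ → Prop} {u : List E} {x : E}
    (h : ¬ ∃ i, Q (u ++ [x]) ((st Q u).2 ++ [i])) : st Q (u ++ [x]) = st Q u := by
  have e : (u ++ [x]).reverse = x :: u.reverse := by simp
  have e2 : (x :: u.reverse).reverse = u ++ [x] := by simp
  unfold st at h ⊢
  rw [e, stR]
  rw [dif_neg (by rw [e2]; exact h)]

theorem iter {Q : List E → List ℕ → Prop}
    (hQ : ∀ s t, Q s t → Force U (fun f => ∃ n, s.length < n ∧ ∃ i, Q (ini f n) (t ++ [i])) s)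
    (h0 : Q [] []) :
    Force U (fun f => ∃ m : ℕ → ℕ, ∀ k, ∃ n, k ≤ n ∧ Q (ini f n) (ini m k)) [] := by
  classical
  have key : ∀ s t, ∃ τ : List E → Set E, (∀ v, τ v ∈ U) ∧
      (Q s t → ∀ f ∈ Br τ s, ∃ n, s.length < n ∧ ∃ i, Q (ini f n) (t ++ [i])) := by
    intro s t
    by_cases hx : Q s t
    · obtain ⟨τ, h1, h2⟩ := hQ s t hx
      exact ⟨τ, h1, fun _ => h2⟩
    · exact ⟨fun _ => Set.univ, fun _ => Filter.univ_mem, fun h => absurd h hx⟩
  choose τ hτ hτP using key
  refine ⟨fun u => τ (st Q u).1 (st Q u).2 u, fun u => hτ _ _ _, fun f hf => ?_⟩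
  let X := {p : ℕ × List ℕ // st Q (ini f p.1) = (ini f p.1, p.2) ∧ Q (ini f p.1) p.2}
  have nx : ∀ p : X, ∃ p' : X, p.1.1 < p'.1.1 ∧ ∃ i, p'.1.2 = p.1.2 ++ [i] := by
    rintro ⟨⟨n, t⟩, h1, h2⟩
    dsimp only at h1 h2 ⊢
    have hex : ∃ n', n < n' ∧ ∃ i, Q (ini f n') (t ++ [i]) := by
      by_contra hno
      push Not at hno
      have hst : ∀ n', n ≤ n' → st Q (ini f n') = (ini f n, t) := by
        intro n' hn'
        induction n', hn' using Nat.le_induction with
        | base => exact h1
        | succ n' hn' ih =>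
          rw [ini_succ, st_neg, ih]
          rintro ⟨i, hi⟩
          rw [ih, ← ini_succ] at hi
          exact hno (n' + 1) (by omega) i hi
      have hbr : f ∈ Br (τ (ini f n) t) (ini f n) := by
        refine ⟨by rw [ini_length], fun n' hn' => ?_⟩
        rw [ini_length] at hn'
        have h3 := hf.2 n' (Nat.zero_le _)
        dsimp only at h3
        rw [hst n' hn'] at h3
        exact h3
      obtain ⟨n', hn', i, hi⟩ := hτP _ _ h2 f hbr
      rw [ini_length] at hn'
      exact hno n' hn' i hi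
    obtain ⟨hlt, hex'⟩ := Nat.find_spec hex
    set n' := Nat.find hex with hn'def
    have hmin : ∀ j, n < j → j < n' → ¬ ∃ i, Q (ini f j) (t ++ [i]) := by
      intro j hj1 hj2 hj3
      exact Nat.find_min hex hj2 ⟨hj1, hj3⟩
    have hst : ∀ j, n ≤ j → j < n' → st Q (ini f j) = (ini f n, t) := by
      intro j hj
      induction j, hj using Nat.le_induction with
      | base => intro _; exact h1
      | succ j hj ih =>
        intro hj'
        have ih' := ih (by omega)
        rw [ini_succ, st_neg, ih']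
        rintro ⟨i, hi⟩
        rw [ih', ← ini_succ] at hi
        exact hmin (j + 1) (by omega) hj' ⟨i, hi⟩
    obtain ⟨j, hj⟩ : ∃ j, n' = j + 1 := ⟨n' - 1, by omega⟩
    have hstj := hst j (by omega) (by omega)
    rw [hj, ini_succ] at hex'
    have h4 : ∃ i, Q (ini f j ++ [f j]) ((st Q (ini f j)).2 ++ [i]) := by
      rw [hstj]
      exact hex'
    obtain ⟨i, hi1, hi2⟩ := st_pos h4
    rw [hstj, ← ini_succ] at hi1 hi2
    exact ⟨⟨(j + 1, t ++ [i]), hi2, hi1⟩, by dsimp only; omega, i, rfl⟩
  choose nxt hn1 hn2 using nx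
  have hstart : st Q (ini f 0) = (ini f 0, []) ∧ Q (ini f 0) [] := ⟨st_nil Q, h0⟩
  let sq : ℕ → X := fun k => Nat.rec ⟨(0, []), hstart⟩ (fun _ p => nxt p) k
  have hsq : ∀ k, sq (k + 1) = nxt (sq k) := fun k => rfl
  have hl : ∀ k, ((sq k).1.2).length = k := by
    intro k
    induction k with
    | zero => rfl
    | succ k ih =>
      obtain ⟨i, hi⟩ := hn2 (sq k)
      rw [hsq, hi, List.length_append, List.length_singleton, ih]
  have hge : ∀ k, k ≤ (sq k).1.1 := by
    intro k
    induction k with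
    | zero => exact Nat.zero_le _
    | succ k ih =>
      have := hn1 (sq k)
      rw [hsq]
      omega
  obtain ⟨m, hm⟩ := chain (fun k => (sq k).1.2) (fun k => by
    obtain ⟨i, hi⟩ := hn2 (sq k)
    rw [hsq, hi]
    simp) (fun k => by
    rw [hl])
  refine ⟨m, fun k => ⟨(sq k).1.1, hge k, ?_⟩⟩
  have h3 := (sq k).2.2
  have h4 : (sq k).1.2 = ini m k := by
    rw [hm k, hl]
    rfl
  rwa [h4] at h3

/-- The dichotomy for projections of closed sets. -/
theorem utree (U : Ultrafilter E) (C : (ℕ → E) → (ℕ → ℕ) → Prop)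
    (hC : ∀ f m, ¬ C f m → ∃ k, ∀ f' m', ini f' k = ini f k → ini m' k = ini m k → ¬ C f' m') :
    Force U (fun f => ∃ m, C f m) [] ∨ Force U (fun f => ¬ ∃ m, C f m) [] := by
  classical
  let NN : List E → List ℕ → Prop := fun s t =>
    ¬ Force U (fun f => ¬ ∃ m, ini m t.length = t ∧ C f m) s
  by_cases h0 : NN [] []
  · left
    have step1 : ∀ s t, NN s t →
        Force U (fun f => ∃ n, s.length ≤ n ∧ ∃ i, NN (ini f n) (t ++ [i])) s := by
      intro s t hst
      by_contra hno
      obtain ⟨σ0, h1, h2⟩ := not_force_open (D := {u | ∃ i, NN u (t ++ [i])}) le_rfl hno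
      apply hst
      have h3 : Force U (fun f => ∀ i : ℕ, ¬ ∃ m, ini m (t ++ [i]).length = t ++ [i] ∧ C f m) s := by
        refine diag h1 fun f hf n hn i => ?_
        by_contra h4
        exact h2 f hf n hn ⟨i, h4⟩
      refine h3.mono fun f hf => ?_
      rintro ⟨m, hm, hCm⟩
      refine hf (m t.length) ⟨m, ?_, hCm⟩
      rw [List.length_append, List.length_singleton, ini_succ, hm]
    have step2 : ∀ s t, NN s t →
        Force U (fun f => ∃ n, s.length < n ∧ ∃ i, NN (ini f n) (t ++ [i])) s := by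
      intro s t hst
      have h1 : {x | Force U (fun f => ¬ ∃ m, ini m t.length = t ∧ C f m) (s ++ [x])} ∉ U :=
        fun h2 => hst (glue h2)
      have h2 := Ultrafilter.compl_mem_iff_notMem.2 h1
      refine glue (Filter.mem_of_superset h2 fun x hx => ?_)
      have h3 := step1 (s ++ [x]) t hx
      refine h3.mono ?_
      rintro f ⟨n, hn, hi⟩
      rw [List.length_append, List.length_singleton] at hn
      exact ⟨n, by omega, hi⟩
    refine (iter step2 h0).mono ?_
    rintro f ⟨m, hm⟩
    refine ⟨m, ?_⟩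
    by_contra hCm
    obtain ⟨k, hk⟩ := hC f m hCm
    obtain ⟨n, hn, hNN⟩ := hm k
    apply hNN
    refine force_of fun g hg => ?_
    rintro ⟨m', hm', hCm'⟩
    rw [ini_length] at hg hm'
    exact hk g m' (ini_mono hn hg) hm' hCm'
  · right
    have h1 : Force U (fun f => ¬ ∃ m, ini m ([] : List ℕ).length = [] ∧ C f m) [] :=
      not_not.1 h0
    refine h1.mono fun f hf => ?_
    rintro ⟨m, hm⟩
    exact hf ⟨m, rfl, hm⟩

end

end Pool.Agent.TH782.VMad
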