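import Pool.Agent.TH782.VMad.Final
import Pool.Agent.TH782.VMad.UTree

set_option autoImplicit false

/-! Over the field with two elements no infinite analytic family of subspaces is mad. -/

open MeasureTheory Filter

namespace Pool.Agent.TH782.VMad

variable {F : Type} [Field F]

attribute [local instance] Ultrafilter.add Ultrafilter.addSemigroup

theorem fin_bound {W : Submodule F (ℕ →₀ F)} (hW : FiniteDimensional F W) :
    ∃ N, ∀ v ∈ W, ∀ i ∈ v.support, i < N := by
  obtain ⟨G, hG⟩ : W.FG := Module.Finite.iff_fg.1 hW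
  refine ⟨(G.sup fun v => hi v) + 1, fun v hv i hi' => ?_⟩
  by_contra hlt
  rw [← hG] at hv
  refine Finsupp.mem_support_iff.1 hi' (span_apply_eq_zero (fun t ht => ?_) hv)
  by_contra h0
  have h1 := le_hi (Finsupp.mem_support_iff.2 h0)
  have h2 : hi t ≤ G.sup fun v => hi v := Finset.le_sup (f := fun v => hi v) ht
  omega

/-- An idempotent ultrafilter that lives far out and avoids all cosets of all members. -/
theorem exists_idem {𝒜 : Set (Submodule F (ℕ →₀ F))} (hA : IsAD 𝒜) (hinf : 𝒜.Infinite) :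
    ∃ q : Ultrafilter (ℕ →₀ F), (∀ n : ℕ, ∀ᶠ x in (q : Filter (ℕ →₀ F)), ∀ i ∈ x.support, n ≤ i) ∧
      (∀ A ∈ 𝒜, ∀ w, ∀ᶠ x in (q : Filter (ℕ →₀ F)), w + x ∉ A) ∧
      ∀ p : (ℕ →₀ F) → Prop, (∀ᶠ x in (q : Filter (ℕ →₀ F)), p x) →
        ∀ᶠ x in (q : Filter (ℕ →₀ F)), ∀ᶠ y in (q : Filter (ℕ →₀ F)), p (x + y) := by
  classical
  let S : Set (Ultrafilter (ℕ →₀ F)) := {q | (∀ n : ℕ, {x : ℕ →₀ F | ∀ i ∈ x.support, n ≤ i} ∈ q) ∧
    ∀ A ∈ 𝒜, ∀ w : ℕ →₀ F, {x | w + x ∉ A} ∈ q}
  have hclosed : IsClosed S := by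
    have e : S = (⋂ n : ℕ, {q : Ultrafilter (ℕ →₀ F) | {x : ℕ →₀ F | ∀ i ∈ x.support, n ≤ i} ∈ q}) ∩
        ⋂ A ∈ 𝒜, ⋂ w : ℕ →₀ F, {q : Ultrafilter (ℕ →₀ F) | {x | w + x ∉ A} ∈ q} := by
      ext q
      simp only [S, Set.mem_ofPred_eq, Set.mem_inter_iff, Set.mem_iInter]
    rw [e]
    exact (isClosed_iInter fun n => ultrafilter_isClosed_basic _).inter
      (isClosed_biInter fun A _ => isClosed_iInter fun w => ultrafilter_isClosed_basic _)
  have hne : S.Nonempty := by
    let a : ℕ ↪ 𝒜 := hinf.natEmbedding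
    choose x hxA hx0 hxf using fun k j : ℕ => exists_far (hA.1 (a k).1 (a k).2) j
    have hNB : ((atTop : Filter ℕ).curry (atTop : Filter ℕ)).NeBot := by
      refine ⟨fun h => ?_⟩
      have h1 : ∀ᶠ _p : ℕ × ℕ in ((atTop : Filter ℕ).curry (atTop : Filter ℕ)), False := by
        rw [h]
        exact eventually_bot
      rw [eventually_curry_iff] at h1
      obtain ⟨k, hk⟩ := h1.exists
      obtain ⟨_, h⟩ := hk.exists
      exact h
    let q : Ultrafilter (ℕ →₀ F) := Ultrafilter.of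
      (Filter.map (fun p : ℕ × ℕ => x p.1 p.2) ((atTop : Filter ℕ).curry (atTop : Filter ℕ)))
    have hq : ∀ p : (ℕ →₀ F) → Prop, (∀ᶠ k in (atTop : Filter ℕ), ∀ᶠ j in (atTop : Filter ℕ),
        p (x k j)) → {y | p y} ∈ q := by
      intro p hp
      have h1 : {y | p y} ∈ Filter.map (fun p : ℕ × ℕ => x p.1 p.2)
          ((atTop : Filter ℕ).curry (atTop : Filter ℕ)) := by
        rw [Filter.mem_map]
        exact Filter.eventually_curry_iff.2 hp
      exact Ultrafilter.of_le _ h1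
    refine ⟨q, fun n => hq _ ?_, fun A hAA w => hq _ ?_⟩
    · refine Eventually.of_forall fun k => ?_
      filter_upwards [eventually_ge_atTop n] with j hj i hi
      exact hj.trans (hxf k j i hi)
    · have h1 : ∀ᶠ k in (atTop : Filter ℕ), (a k).1 ≠ A := by
        by_cases hex : ∃ k0, (a k0).1 = A
        · obtain ⟨k0, hk0⟩ := hex
          filter_upwards [eventually_gt_atTop k0] with k hk he
          have : a k = a k0 := Subtype.ext (he.trans hk0.symm)
          have := a.injective this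
          omega
        · exact Eventually.of_forall fun k he => hex ⟨k, he⟩
      filter_upwards [h1] with k hk
      by_cases hex : ∃ j0, w + x k j0 ∈ A
      · obtain ⟨j0, hj0⟩ := hex
        obtain ⟨N, hN⟩ := fin_bound (hA.2 _ (a k).2 _ hAA hk)
        filter_upwards [eventually_ge_atTop (N + (hi (x k j0) + 1))] with j hj hmem
        obtain ⟨i, hi1⟩ := Finsupp.support_nonempty_iff.2 (hx0 k j)
        have h2 := hxf k j i hi1
        have h3 : x k j - x k j0 ∈ (a k).1 ⊓ A := by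
          refine ⟨Submodule.sub_mem _ (hxA k j) (hxA k j0), ?_⟩
          have := Submodule.sub_mem _ hmem hj0
          rwa [add_sub_add_left_eq_sub] at this
        have h4 : i ∈ (x k j - x k j0).support := by
          rw [Finsupp.mem_support_iff, Finsupp.sub_apply]
          have h5 : x k j0 i = 0 := by
            by_contra h6
            have := le_hi (Finsupp.mem_support_iff.2 h6)
            omega
          rw [h5, sub_zero]
          exact Finsupp.mem_support_iff.1 hi1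
        have := hN _ h3 i h4
        omega
      · exact Eventually.of_forall fun j hj => hex ⟨j, hj⟩
  have hadd : ∀ x ∈ S, ∀ y ∈ S, x + y ∈ S := by
    rintro p ⟨hp1, hp2⟩ r ⟨hr1, hr2⟩
    refine ⟨fun n => ?_, fun A hAA w => ?_⟩
    · have h1 : ∀ᶠ m in (p : Filter (ℕ →₀ F)), ∀ᶠ m' in (r : Filter (ℕ →₀ F)),
          ∀ i ∈ (m + m').support, n ≤ i := by
        have e1 : ∀ᶠ m in (p : Filter (ℕ →₀ F)), ∀ i ∈ m.support, n ≤ i := hp1 n
        have e2 : ∀ᶠ m in (r : Filter (ℕ →₀ F)), ∀ i ∈ m.support, n ≤ i := hr1 n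
        filter_upwards [e1] with m hm
        filter_upwards [e2] with m' hm' i hi
        rcases Finset.mem_union.1 (Finsupp.support_add hi) with h | h
        · exact hm i h
        · exact hm' i h
      exact (Ultrafilter.eventually_add p r _).2 h1
    · have h1 : ∀ᶠ m in (p : Filter (ℕ →₀ F)), ∀ᶠ m' in (r : Filter (ℕ →₀ F)),
          w + (m + m') ∉ A := by
        refine Eventually.of_forall fun m => ?_
        have e2 : ∀ᶠ m' in (r : Filter (ℕ →₀ F)), (w + m) + m' ∉ A := hr2 A hAA (w + m)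
        filter_upwards [e2] with m' hm'
        rwa [← add_assoc]
      exact (Ultrafilter.eventually_add p r _).2 h1
  obtain ⟨q, hq, hqq⟩ := exists_idempotent_in_compact_add_subsemigroup
    Ultrafilter.continuous_add_left S hne hclosed.isCompact hadd
  refine ⟨q, hq.1, hq.2, fun p hp => ?_⟩
  rw [← hqq] at hp
  exact (Ultrafilter.eventually_add q q p).1 hp

/-- The elements of `D` almost all of whose translates stay in `D`. -/
def star (q : Ultrafilter (ℕ →₀ F)) (D : Set (ℕ →₀ F)) : Set (ℕ →₀ F) :=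
  {x | x ∈ D ∧ ∀ᶠ y in (q : Filter (ℕ →₀ F)), x + y ∈ D}

theorem star_mem {q : Ultrafilter (ℕ →₀ F)}
    (hid : ∀ p : (ℕ →₀ F) → Prop, (∀ᶠ x in (q : Filter (ℕ →₀ F)), p x) →
      ∀ᶠ x in (q : Filter (ℕ →₀ F)), ∀ᶠ y in (q : Filter (ℕ →₀ F)), p (x + y))
    {D : Set (ℕ →₀ F)} (hD : D ∈ q) : star q D ∈ q :=
  Filter.inter_mem hD (hid (fun x => x ∈ D) hD)

theorem star_add {q : Ultrafilter (ℕ →₀ F)}
    (hid : ∀ p : (ℕ →₀ F) → Prop, (∀ᶠ x in (q : Filter (ℕ →₀ F)), p x) →
      ∀ᶠ x in (q : Filter (ℕ →₀ F)), ∀ᶠ y in (q : Filter (ℕ →₀ F)), p (x + y))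
    {D : Set (ℕ →₀ F)} {x : ℕ →₀ F} (hx : x ∈ star q D) :
    {y | x + y ∈ star q D} ∈ q := by
  have h1 := hid (fun y => x + y ∈ D) hx.2
  have h2 : ∀ᶠ y in (q : Filter (ℕ →₀ F)), x + y ∈ star q D := by
    filter_upwards [hx.2, h1] with y hy1 hy2
    refine ⟨hy1, ?_⟩
    filter_upwards [hy2] with z hz
    rwa [add_assoc]
  exact h2

/-- Sequences built by a choice rule. -/
theorem exists_build {E : Type} (W : List E → Set E) (hW : ∀ u, (W u).Nonempty) :
    ∃ f : ℕ → E, ∀ n, f n ∈ W (ini f n) := by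
  classical
  choose pick hpick using hW
  let L : ℕ → List E := fun n => Nat.rec [] (fun _ l => l ++ [pick l]) n
  have hL : ∀ n, L (n + 1) = L n ++ [pick (L n)] := fun n => rfl
  have hini : ∀ n, ini (fun k => pick (L k)) n = L n := by
    intro n
    induction n with
    | zero => rfl
    | succ n ih => rw [ini_succ, ih, hL]
  refine ⟨fun k => pick (L k), fun n => ?_⟩
  rw [hini]
  exact hpick _

theorem finite_lists {α : Type} {T : Set α} (hT : T.Finite) (n : ℕ) :
    {l : List α | l.length ≤ n ∧ ∀ x ∈ l, x ∈ T}.Finite := by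
  have : Finite T := hT
  refine ((List.finite_length_le T n).image (List.map Subtype.val)).subset ?_
  rintro l ⟨h1, h2⟩
  refine ⟨l.attach.map fun x => ⟨x.1, h2 x.1 x.2⟩, by simpa using h1, ?_⟩
  simp

/-- The vector coded by a finite set of positions of a list. -/
noncomputable def sumI (l : List (ℕ →₀ F)) (I : Finset ℕ) : ℕ →₀ F := ∑ i ∈ I, l.getD i 0

theorem sumI_ini (Y : ℕ → (ℕ →₀ F)) {n : ℕ} {I : Finset ℕ} (hI : ∀ i ∈ I, i < n) :
    sumI (ini Y n) I = ∑ i ∈ I, Y i := by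
  unfold sumI
  refine Finset.sum_congr rfl fun i hi => ?_
  have h1 := hI i hi
  rw [List.getD_eq_getElem _ _ (by rw [ini_length]; exact h1), ini_get Y h1]

/-- A branch all of whose block subsequences are branches. -/
theorem exists_full {q : Ultrafilter (ℕ →₀ F)}
    (hfar : ∀ n : ℕ, ∀ᶠ x in (q : Filter (ℕ →₀ F)), ∀ i ∈ x.support, n ≤ i)
    (hid : ∀ p : (ℕ →₀ F) → Prop, (∀ᶠ x in (q : Filter (ℕ →₀ F)), p x) →
      ∀ᶠ x in (q : Filter (ℕ →₀ F)), ∀ᶠ y in (q : Filter (ℕ →₀ F)), p (x + y))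
    (h0 : ∀ᶠ x in (q : Filter (ℕ →₀ F)), x ≠ 0)
    {σ : List (ℕ →₀ F) → Set (ℕ →₀ F)} (hσ : ∀ u, σ u ∈ q) :
    ∃ Y : ℕ → (ℕ →₀ F), (∀ n, Y n ≠ 0) ∧ (∀ i j, i < j → Below (Y i) (Y j)) ∧
      ∀ (Is : List (Finset ℕ)) (k : ℕ), Is.length ≤ k → (∀ I ∈ Is, ∀ i ∈ I, i < k) →
        ∀ J : Finset ℕ, J.Nonempty → (∀ j ∈ J, k ≤ j) →
          ∑ j ∈ J, Y j ∈ σ (Is.map fun I => ∑ i ∈ I, Y i) := by
  classical
  let W : List (ℕ →₀ F) → Set (ℕ →₀ F) := fun l => {x | x ≠ 0 ∧ (∀ y ∈ {y | y ∈ l}, Below y x) ∧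
    ∀ Is ∈ {Is : List (Finset ℕ) | Is.length ≤ l.length ∧
      ∀ I ∈ Is, I ∈ {I : Finset ℕ | I ⊆ Finset.range l.length}},
    ∀ J ∈ {I : Finset ℕ | I ⊆ Finset.range l.length},
      (sumI l J = 0 ∨ sumI l J ∈ star q (σ (Is.map (sumI l)))) →
        sumI l J + x ∈ star q (σ (Is.map (sumI l)))}
  have hfinJ : ∀ n : ℕ, {I : Finset ℕ | I ⊆ Finset.range n}.Finite := by
    intro n
    refine (Finset.finite_toSet (Finset.range n).powerset).subset fun I hI => ?_
    exact Finset.mem_coe.2 (Finset.mem_powerset.2 hI)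
  have hW : ∀ l, W l ∈ q := by
    intro l
    have e1 : ∀ᶠ x in (q : Filter (ℕ →₀ F)), ∀ y ∈ {y | y ∈ l}, Below y x := by
      rw [Set.Finite.eventually_all (List.finite_toSet l)]
      intro y _
      filter_upwards [hfar (hi y + 1)] with x hx i hi' j hj
      have := le_hi hi'
      have := hx j hj
      omega
    have e2 : ∀ᶠ x in (q : Filter (ℕ →₀ F)), ∀ Is ∈ {Is : List (Finset ℕ) |
        Is.length ≤ l.length ∧ ∀ I ∈ Is, I ∈ {I : Finset ℕ | I ⊆ Finset.range l.length}},
        ∀ J ∈ {I : Finset ℕ | I ⊆ Finset.range l.length},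
          (sumI l J = 0 ∨ sumI l J ∈ star q (σ (Is.map (sumI l)))) →
          sumI l J + x ∈ star q (σ (Is.map (sumI l))) := by
      rw [Set.Finite.eventually_all (finite_lists (hfinJ _) _)]
      intro Is _
      rw [Set.Finite.eventually_all (hfinJ _)]
      intro J _
      by_cases hJ : sumI l J = 0 ∨ sumI l J ∈ star q (σ (Is.map (sumI l)))
      · rcases hJ with hJ | hJ
        · have e3 : ∀ᶠ x in (q : Filter (ℕ →₀ F)), x ∈ star q (σ (Is.map (sumI l))) :=
            star_mem hid (hσ _)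
          filter_upwards [e3] with x hx _
          rwa [hJ, zero_add]
        · have e3 : ∀ᶠ x in (q : Filter (ℕ →₀ F)), sumI l J + x ∈ star q (σ (Is.map (sumI l))) :=
            star_add hid hJ
          filter_upwards [e3] with x hx _
          exact hx
      · exact Eventually.of_forall fun x h => absurd h hJ
    have e3 : ∀ᶠ x in (q : Filter (ℕ →₀ F)), x ∈ W l := by
      filter_upwards [h0, e1, e2] with x h1 h2 h3
      exact ⟨h1, h2, h3⟩
    exact e3
  obtain ⟨Y, hY⟩ := exists_build W fun l => Ultrafilter.nonempty_of_mem (hW l)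
  refine ⟨Y, fun n => (hY n).1, fun i j hij => (hY j).2.1 (Y i) ?_, ?_⟩
  · show Y i ∈ ini Y j
    unfold ini
    rw [List.mem_map]
    exact ⟨i, List.mem_range.2 hij, rfl⟩
  · intro Is k hk hIs J hJne hJ
    have key : ∀ J : Finset ℕ, J.Nonempty → (∀ j ∈ J, k ≤ j) →
        ∑ j ∈ J, Y j ∈ star q (σ (Is.map fun I => ∑ i ∈ I, Y i)) := by
      intro J
      induction J using Finset.induction_on_max with
      | empty => intro h; exact absurd h Finset.not_nonempty_empty
      | insert a s hlt ih =>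
        intro _ hJ
        have ha : a ∉ s := fun h => lt_irrefl _ (hlt a h)
        have hka : k ≤ a := hJ a (Finset.mem_insert_self a s)
        have h3 := (hY a).2.2 Is ⟨by rw [ini_length]; omega, fun I hI => by
          show I ⊆ Finset.range (ini Y a).length
          intro i hi
          rw [ini_length, Finset.mem_range]
          have := hIs I hI i hi
          omega⟩ s (by
          show s ⊆ Finset.range (ini Y a).length
          intro i hi
          rw [ini_length, Finset.mem_range]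
          exact hlt i hi)
        have e1 : Is.map (sumI (ini Y a)) = Is.map fun I => ∑ i ∈ I, Y i :=
          List.map_congr_left fun I hI => sumI_ini Y fun i hi => by
            have := hIs I hI i hi
            omega
        rw [e1, sumI_ini Y hlt] at h3
        rw [Finset.sum_insert ha, add_comm]
        refine h3 ?_
        rcases s.eq_empty_or_nonempty with rfl | hs
        · left; simp
        · right
          exact ih hs fun j hj => hJ j (Finset.mem_insert_of_mem hj)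
    exact (key J hJne hJ).1

/-- A member of a mad family meets every infinite-dimensional subspace. -/
theorem IsMad.meets {𝒜 : Set (Submodule F (ℕ →₀ F))} (h : IsMad 𝒜) {X : Submodule F (ℕ →₀ F)}
    (hX : ¬ FiniteDimensional F X) : ∃ A ∈ 𝒜, ¬ FiniteDimensional F ↥(A ⊓ X) := by
  by_contra hno
  push Not at hno
  have h1 : IsAD (insert X 𝒜) := by
    refine ⟨?_, ?_⟩
    · rintro A (rfl | hA)
      · exact hX
      · exact h.1.1 A hA
    · rintro A (rfl | hA) B (rfl | hB) hne
      · exact absurd rfl hne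
      · rw [inf_comm]; exact hno B hB
      · exact hno A hA
      · exact h.1.2 A hA B hB hne
  have h2 := h.2 _ h1 (Set.subset_insert _ _)
  have h3 : X ∈ 𝒜 := by
    rw [← h2]
    exact Set.mem_insert _ _
  have h4 := hno X h3
  rw [inf_idem] at h4
  exact hX h4

/-- Infinite-dimensional subspaces contain block sequences. -/
theorem exists_block {X : Submodule F (ℕ →₀ F)} (hX : ¬ FiniteDimensional F X) :
    ∃ Z : ℕ → (ℕ →₀ F), (∀ n, Z n ∈ X ∧ Z n ≠ 0) ∧ ∀ i j, i < j → Below (Z i) (Z j) := by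
  classical
  obtain ⟨Z, hZ⟩ := exists_build
    (fun l : List (ℕ →₀ F) => {x | x ∈ X ∧ x ≠ 0 ∧ ∀ y ∈ l, Below y x}) (fun l => by
    obtain ⟨v, h1, h2, h3⟩ := exists_far hX ((l.toFinset.sup fun t => hi t) + 1)
    refine ⟨v, h1, h2, fun y hy i hi' j hj => ?_⟩
    have h4 := le_hi hi'
    have h5 : hi y ≤ l.toFinset.sup fun t => hi t :=
      Finset.le_sup (f := fun t => hi t) (List.mem_toFinset.2 hy)
    have := h3 j hj
    omega)
  refine ⟨Z, fun n => ⟨(hZ n).1, (hZ n).2.1⟩, fun i j hij => (hZ j).2.2 (Z i) ?_⟩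
  unfold ini
  rw [List.mem_map]
  exact ⟨i, List.mem_range.2 hij, rfl⟩

theorem block_not_finite {Z : ℕ → (ℕ →₀ F)} (h0 : ∀ n, Z n ≠ 0)
    (hZ : ∀ i j, i < j → Below (Z i) (Z j)) {X : Submodule F (ℕ →₀ F)} {N : ℕ}
    (hX : ∀ n, N ≤ n → Z n ∈ X) : ¬ FiniteDimensional F X := by
  have hfar : ∀ i, ∀ q ∈ (Z i).support, i ≤ q := by
    intro i
    induction i with
    | zero => intro q _; exact Nat.zero_le q
    | succ i ih =>
      intro q hq
      have h2 := ih _ (hi_mem (h0 i))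
      have h3 := hZ i (i + 1) (by omega) _ (hi_mem (h0 i)) q hq
      omega
  exact not_finite_of_far fun m => ⟨Z (max m N), hX _ (le_max_right _ _), h0 _,
    fun i hi => (le_max_left _ _).trans (hfar _ i hi)⟩

theorem mem_span_two (hF : ∀ α : F, α = 0 ∨ α = 1) {Y : ℕ → (ℕ →₀ F)} {v : ℕ →₀ F}
    (hv : v ∈ Submodule.span F (Set.range Y)) : ∃ I : Finset ℕ, v = ∑ i ∈ I, Y i := by
  obtain ⟨c, rfl⟩ := Finsupp.mem_span_range_iff_exists_finsupp.1 hv
  refine ⟨c.support, Finset.sum_congr rfl fun i hi => ?_⟩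
  rcases hF (c i) with h | h
  · exact absurd h (Finsupp.mem_support_iff.1 hi)
  · dsimp only
    rw [h, one_smul]

theorem support_sum_block {Y : ℕ → (ℕ →₀ F)} (hY : ∀ i j, i < j → Below (Y i) (Y j))
    {I : Finset ℕ} {i : ℕ} (hi : i ∈ I) {q : ℕ} (hq : q ∈ (Y i).support) :
    q ∈ (∑ j ∈ I, Y j).support := by
  rw [Finsupp.mem_support_iff, Finsupp.finsetSum_apply, Finset.sum_eq_single i]
  · exact Finsupp.mem_support_iff.1 hq
  · intro j _ hj
    by_contra h0
    have h1 := Finsupp.mem_support_iff.2 h0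
    rcases Nat.lt_or_gt_of_ne hj with h | h
    · exact lt_irrefl _ (hY j i h q h1 q hq)
    · exact lt_irrefl _ (hY i j h q hq q h1)
  · intro h
    exact absurd hi h

theorem cyl {g : (ℕ → ℕ) → Bool} (hg : Continuous g) (m : ℕ → ℕ) :
    ∃ k, ∀ m', ini m' k = ini m k → g m' = g m := by
  have h1 : IsOpen (g ⁻¹' {g m}) := (isOpen_discrete _).preimage hg
  obtain ⟨I, u, hu, hsub⟩ := isOpen_pi_iff.1 h1 m rfl
  refine ⟨I.sup id + 1, fun m' hm' => ?_⟩
  have h2 : m' ∈ (I : Set ℕ).pi u := by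
    intro i hi
    have h3 : i < I.sup id + 1 := Nat.lt_succ_of_le (Finset.le_sup (f := id) hi)
    have h4 : m' i = m i := by
      have := congrArg (fun l => l[i]?) hm'
      simp only [ini, List.getElem?_map, List.getElem?_range h3, Option.map_some] at this
      exact Option.some.inj this
    rw [h4]
    exact (hu i hi).2
  exact hsub h2

theorem no_mad_two (hF : ∀ α : F, α = 0 ∨ α = 1) {𝒜 : Set (Submodule F (ℕ →₀ F))}
    (hmad : IsMad 𝒜) (hinf : 𝒜.Infinite) (han : AnalyticSet (chars 𝒜)) : False := by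
  classical
  have hcF : Countable F := by
    have : Finite F := Finite.of_surjective (fun b : Bool => if b then (1 : F) else 0) fun α => by
      rcases hF α with h | h
      · exact ⟨false, by simp [h]⟩
      · exact ⟨true, by simp [h]⟩
    infer_instance
  obtain ⟨q, hfar, hcos, hid⟩ := exists_idem hmad.1 hinf
  obtain ⟨A0, hA0⟩ := hinf.nonempty
  have hne0 : ∀ᶠ x in (q : Filter (ℕ →₀ F)), x ≠ 0 := by
    filter_upwards [hcos A0 hA0 0] with x hx h0
    rw [h0, add_zero] at hx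
    exact hx (Submodule.zero_mem _)
  rw [AnalyticSet] at han
  obtain ⟨g, hg, hgr⟩ : ∃ g : (ℕ → ℕ) → ((ℕ →₀ F) → Bool), Continuous g ∧ Set.range g = chars 𝒜 := by
    rcases han with h | h
    · exfalso
      have : (fun v => decide (v ∈ A0)) ∈ chars 𝒜 := ⟨A0, hA0, fun v => decide_eq_true_iff⟩
      rw [h] at this
      exact this
    · exact h
  have hg1 : ∀ m, ∃ A ∈ 𝒜, ∀ v, g m v = true ↔ v ∈ A := by
    intro m
    have : g m ∈ chars 𝒜 := by rw [← hgr]; exact ⟨m, rfl⟩
    exact this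
  have hg2 : ∀ A ∈ 𝒜, ∃ m, ∀ v, g m v = true ↔ v ∈ A := by
    intro A hA
    have : (fun v => decide (v ∈ A)) ∈ chars 𝒜 := ⟨A, hA, fun v => decide_eq_true_iff⟩
    rw [← hgr] at this
    obtain ⟨m, hm⟩ := this
    refine ⟨m, fun v => ?_⟩
    rw [hm]
    exact decide_eq_true_iff
  let C : (ℕ →₀ F) → (ℕ → (ℕ →₀ F)) → (ℕ → ℕ) → Prop := fun v Y m =>
    (∀ n, g m (Y n) = true) ∧ g m v = true
  have hC : ∀ v Y m, ¬ C v Y m → ∃ k, ∀ Y' m', ini Y' k = ini Y k → ini m' k = ini m k →
      ¬ C v Y' m' := by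
    intro v Y m hn
    by_cases h1 : g m v = true
    · have h2 : ∃ n, g m (Y n) ≠ true := by
        by_contra h3
        push Not at h3
        exact hn ⟨h3, h1⟩
      obtain ⟨n, hn'⟩ := h2
      obtain ⟨k, hk⟩ := cyl (g := fun m => g m (Y n)) ((continuous_apply _).comp hg) m
      refine ⟨max k (n + 1), fun Y' m' hY' hm' hC => ?_⟩
      have e1 : Y' n = Y n := by
        have := congrArg (fun l => l[n]?) hY'
        simp only [ini, List.getElem?_map,
          List.getElem?_range (show n < max k (n + 1) by omega), Option.map_some] at this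
        exact Option.some.inj this
      have e2 := hk m' (ini_mono (le_max_left _ _) hm')
      have e3 := hC.1 n
      rw [e1] at e3
      rw [e2] at e3
      exact hn' e3
    · obtain ⟨k, hk⟩ := cyl (g := fun m => g m v) ((continuous_apply _).comp hg) m
      refine ⟨k, fun Y' m' _ hm' hC => ?_⟩
      have e2 := hk m' hm'
      rw [← e2] at h1
      exact h1 hC.2
  have hCiff : ∀ v Y, (∃ m, C v Y m) ↔ ∃ A ∈ 𝒜, (∀ n, Y n ∈ A) ∧ v ∈ A := by
    intro v Y
    constructor
    · rintro ⟨m, h1, h2⟩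
      obtain ⟨A, hA, hAm⟩ := hg1 m
      exact ⟨A, hA, fun n => (hAm _).1 (h1 n), (hAm _).1 h2⟩
    · rintro ⟨A, hA, h1, h2⟩
      obtain ⟨m, hm⟩ := hg2 A hA
      exact ⟨m, fun n => (hm _).2 (h1 n), (hm _).2 h2⟩
  obtain ⟨e0, he0⟩ := exists_surjective_nat (ℕ →₀ F)
  let e : ℕ → (ℕ →₀ F) := fun i => e0 i.unpair.1
  have he : ∀ v N, ∃ i, N ≤ i ∧ e i = v := by
    intro v N
    obtain ⟨a, rfl⟩ := he0 v
    refine ⟨Nat.pair a N, Nat.right_le_pair _ _, ?_⟩
    show e0 (Nat.unpair (Nat.pair a N)).1 = e0 a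
    rw [Nat.unpair_pair]
  have hdich : ∀ i, ∃ σ : List (ℕ →₀ F) → Set (ℕ →₀ F), (∀ u, σ u ∈ q) ∧
      ((∀ f ∈ Br σ [], ∃ m, C (e i) f m) ∨ ∀ f ∈ Br σ [], ¬ ∃ m, C (e i) f m) := by
    intro i
    rcases utree q (C (e i)) (hC (e i)) with ⟨σ, h1, h2⟩ | ⟨σ, h1, h2⟩
    · exact ⟨σ, h1, Or.inl h2⟩
    · exact ⟨σ, h1, Or.inr h2⟩
  choose τ hτq hτ using hdich
  let σ : List (ℕ →₀ F) → Set (ℕ →₀ F) := fun u =>
    {x | x ≠ 0} ∩ ({x | ∀ y ∈ {y | y ∈ u}, Below y x} ∩ ⋂ i ∈ Set.Iic u.length, τ i (u.drop i))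
  have hσ : ∀ u, σ u ∈ q := by
    intro u
    refine Filter.inter_mem hne0 (Filter.inter_mem ?_
      ((Filter.biInter_mem (Set.finite_Iic _)).2 fun i _ => hτq _ _))
    have e1 : ∀ᶠ x in (q : Filter (ℕ →₀ F)), ∀ y ∈ {y | y ∈ u}, Below y x := by
      rw [Set.Finite.eventually_all (List.finite_toSet u)]
      intro y _
      filter_upwards [hfar (hi y + 1)] with x hx i hi' j hj
      have := le_hi hi'
      have := hx j hj
      omega
    exact e1
  have hbr : ∀ f ∈ Br σ [], (∀ n, f n ≠ 0) ∧ (∀ i j, i < j → Below (f i) (f j)) ∧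
      ∀ i, (fun n => f (i + n)) ∈ Br (τ i) [] := by
    intro f hf
    refine ⟨fun n => (hf.2 n (Nat.zero_le _)).1, fun i j hij => ?_, fun i => ⟨rfl, fun n _ => ?_⟩⟩
    · refine (hf.2 j (Nat.zero_le _)).2.1 (f i) ?_
      show f i ∈ ini f j
      unfold ini
      rw [List.mem_map]
      exact ⟨i, List.mem_range.2 hij, rfl⟩
    · have h1 := (hf.2 (i + n) (Nat.zero_le _)).2.2
      rw [Set.mem_iInter₂] at h1
      have h2 := h1 i (by rw [Set.mem_Iic, ini_length]; omega)
      have h3 : (ini f (i + n)).drop i = ini (fun n => f (i + n)) n := by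
        unfold ini
        rw [← List.map_drop, List.range_add, List.drop_append_of_le_length (by simp)]
        simp [List.drop_eq_nil_of_le]
      rwa [h3] at h2
  have hno : ∀ f ∈ Br σ [], ∀ A ∈ 𝒜, ¬ ∀ n, f n ∈ A := by
    intro f hf A hA hfA
    obtain ⟨hf0, hfB, hft⟩ := hbr f hf
    obtain ⟨f', hf'⟩ := exists_build (fun u => σ u ∩ {x | x ∉ A}) fun u => by
      refine Ultrafilter.nonempty_of_mem (f := q) (Filter.inter_mem (hσ u) ?_)
      have h1 : ∀ᶠ x in (q : Filter (ℕ →₀ F)), x ∉ A := by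
        filter_upwards [hcos A hA 0] with x hx
        rwa [zero_add] at hx
      exact h1
    have hf'br : f' ∈ Br σ [] := ⟨rfl, fun n _ => (hf' n).1⟩
    obtain ⟨hf'0, hf'B, hf't⟩ := hbr f' hf'br
    obtain ⟨i0, _, hi0⟩ := he 0 0
    have h1 : ∃ A' ∈ 𝒜, ∀ n, f' (i0 + n) ∈ A' := by
      rcases hτ i0 with h | h
      · obtain ⟨A', hA', h2, _⟩ := (hCiff _ _).1 (h _ (hf't i0))
        exact ⟨A', hA', h2⟩
      · exfalso
        refine h _ (hft i0) ((hCiff _ _).2 ⟨A, hA, fun n => hfA _, ?_⟩)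
        rw [hi0]
        exact Submodule.zero_mem _
    obtain ⟨A', hA', hfA'⟩ := h1
    obtain ⟨i, hi, hei⟩ := he (f' i0) i0
    have h2 : ∃ m, C (e i) (fun n => f' (i + n)) m := by
      refine (hCiff _ _).2 ⟨A', hA', fun n => ?_, ?_⟩
      · have := hfA' (i - i0 + n)
        rwa [show i0 + (i - i0 + n) = i + n by omega] at this
      · rw [hei]
        exact hfA' 0
    have h3 : ∃ m, C (e i) (fun n => f (i + n)) m := by
      rcases hτ i with h | h
      · exact h _ (hft i)
      · exact absurd h2 (h _ (hf't i))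
    obtain ⟨A'', hA'', h4, h5⟩ := (hCiff _ _).1 h3
    rw [hei] at h5
    have hne : A ≠ A'' := by
      rintro rfl
      exact (hf' i0).2 h5
    refine block_not_finite (X := A ⊓ A'') (N := i) hf0 hfB (fun n hn => ⟨hfA n, ?_⟩)
      (hmad.1.2 A hA A'' hA'' hne)
    have := h4 (n - i)
    rwa [show i + (n - i) = n by omega] at this
  obtain ⟨Y, hY0, hYB, hYs⟩ := exists_full hfar hid hne0 hσ
  have hX : ¬ FiniteDimensional F (Submodule.span F (Set.range Y)) :=
    block_not_finite (N := 0) hY0 hYB fun n _ => Submodule.subset_span ⟨n, rfl⟩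
  obtain ⟨A, hA, hAX⟩ := hmad.meets hX
  obtain ⟨Z, hZ, hZB⟩ := exists_block hAX
  choose I hI using fun n => mem_span_two hF (hZ n).1.2
  have hIne : ∀ n, (I n).Nonempty := by
    intro n
    rw [Finset.nonempty_iff_ne_empty]
    intro h
    apply (hZ n).2
    rw [hI n, h]
    simp
  have hIlt : ∀ m n, m < n → ∀ i ∈ I m, ∀ j ∈ I n, i < j := by
    intro m n hmn i hi' j hj
    by_contra hle
    rw [not_lt] at hle
    obtain ⟨a, ha⟩ := Finsupp.support_nonempty_iff.2 (hY0 i)
    obtain ⟨b, hb⟩ := Finsupp.support_nonempty_iff.2 (hY0 j)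
    have h1 : a ∈ (Z m).support := by
      rw [hI m]
      exact support_sum_block hYB hi' ha
    have h2 : b ∈ (Z n).support := by
      rw [hI n]
      exact support_sum_block hYB hj hb
    have h3 := hZB m n hmn a h1 b h2
    rcases hle.lt_or_eq with h | rfl
    · have := hYB j i h b hb a ha
      omega
    · have h4 : a ∈ (Z n).support := by
        rw [hI n]
        exact support_sum_block hYB hj ha
      exact lt_irrefl _ (hZB m n hmn a h1 a h4)
  have hIge : ∀ n, ∀ i ∈ I n, n ≤ i := by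
    intro n
    induction n with
    | zero => intro i _; exact Nat.zero_le i
    | succ n ih =>
      intro i hi'
      obtain ⟨j, hj⟩ := hIne n
      have := ih j hj
      have := hIlt n (n + 1) (by omega) j hj i hi'
      omega
  refine hno Z ⟨rfl, fun n _ => ?_⟩ A hA fun n => (hZ n).1.1
  have h1 := hYs (ini I n) ((I n).min' (hIne n)) (by
    rw [ini_length]
    exact hIge n _ (Finset.min'_mem _ _)) (fun J hJ i hi' => by
    unfold ini at hJ
    rw [List.mem_map] at hJ
    obtain ⟨m, hm, rfl⟩ := hJ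
    exact hIlt m n (List.mem_range.1 hm) i hi' _ (Finset.min'_mem _ _)) (I n) (hIne n)
    fun j hj => Finset.min'_le _ j hj
  have h2 : (ini I n).map (fun I => ∑ i ∈ I, Y i) = ini Z n := by
    unfold ini
    rw [List.map_map]
    exact List.map_congr_left fun i _ => (hI i).symm
  rw [h2, ← hI n] at h1
  exact h1

end Pool.Agent.TH782.VMad
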