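import Pool.Agent.TH782.VMad.Coh

set_option autoImplicit false

/-! The family is Borel, uncountable and maximal almost disjoint. -/

open MeasureTheory

namespace Pool.Agent.TH782.VMad

variable {F : Type} [Field F] {seq : ℕ → List (ℕ →₀ F)}

/-- Almost disjoint families of infinite-dimensional subspaces. -/
def IsAD (𝒜 : Set (Submodule F (ℕ →₀ F))) : Prop :=
  (∀ A ∈ 𝒜, ¬ FiniteDimensional F A) ∧
    ∀ A ∈ 𝒜, ∀ B ∈ 𝒜, A ≠ B → FiniteDimensional F ↥(A ⊓ B)

/-- Maximal almost disjoint families of infinite-dimensional subspaces. -/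
def IsMad (𝒜 : Set (Submodule F (ℕ →₀ F))) : Prop :=
  IsAD 𝒜 ∧ ∀ ℬ : Set (Submodule F (ℕ →₀ F)), IsAD ℬ → 𝒜 ⊆ ℬ → ℬ = 𝒜

/-- The characteristic functions of the members of a family. -/
def chars (𝒜 : Set (Submodule F (ℕ →₀ F))) : Set ((ℕ →₀ F) → Bool) :=
  {χ | ∃ A ∈ 𝒜, ∀ v, χ v = true ↔ v ∈ A}

/-- The family. -/
def Fam (seq : ℕ → List (ℕ →₀ F)) : Set (Submodule F (ℕ →₀ F)) :=
  {A | ∃ a, GSeq seq a ∧ A = Submodule.span F (Set.range a)}

theorem exists_seq [Countable F] :
    ∃ seq : ℕ → List (ℕ →₀ F), (∀ j, 2 * S (seq j) < 2 ^ j) ∧ ∀ l, ∃ j, seq j = l := by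
  classical
  obtain ⟨e, he⟩ := exists_surjective_nat (List (ℕ →₀ F))
  refine ⟨fun j => if 2 * S (e j.unpair.1) < 2 ^ j then e j.unpair.1 else [], ?_, ?_⟩
  · intro j
    dsimp only
    split_ifs with h
    · exact h
    · simp [S]
  · intro l
    obtain ⟨a, rfl⟩ := he l
    refine ⟨Nat.pair a (2 * S (e a)), ?_⟩
    dsimp only
    rw [Nat.unpair_pair]
    refine if_pos ?_
    calc 2 * S (e a) < 2 ^ (2 * S (e a)) := Nat.lt_two_pow_self
      _ ≤ 2 ^ Nat.pair a (2 * S (e a)) :=
        Nat.pow_le_pow_right (by norm_num) (Nat.right_le_pair _ _)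

theorem isAD_fam : IsAD (Fam seq) := by
  refine ⟨?_, ?_⟩
  · rintro A ⟨a, ha, rfl⟩
    exact ha.not_finite
  · rintro A ⟨a, ha, rfl⟩ B ⟨b, hb, rfl⟩ hne
    exact ha.ad hb fun h => hne (by rw [h])

theorem isMad_fam (hc : ∀ j, 2 * S (seq j) < 2 ^ j) (hsurj : ∀ l, ∃ j, seq j = l) {α : F}
    (h0 : α ≠ 0) (h1 : α ≠ 1) : IsMad (Fam seq) := by
  refine ⟨isAD_fam, fun ℬ hℬ hsub => Set.Subset.antisymm ?_ hsub⟩
  intro B hB
  obtain ⟨a, ha, hfin⟩ := maximal hc hsurj (hℬ.1 B hB) h0 h1
  have hmem : Submodule.span F (Set.range a) ∈ Fam seq := ⟨a, ha, rfl⟩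
  by_contra hB'
  refine hfin (hℬ.2 _ (hsub hmem) _ hB ?_)
  rintro rfl
  exact hB' hmem

theorem isOpen_dep [TopologicalSpace (ℕ →₀ F)] [DiscreteTopology (ℕ →₀ F)] (n : ℕ)
    (Q : (ℕ → (ℕ →₀ F)) → Prop) (hQ : ∀ y z, (∀ i < n, y i = z i) → Q y → Q z) :
    IsOpen {y | Q y} := by
  rw [isOpen_iff_forall_mem_open]
  intro y hy
  refine ⟨⋂ i ∈ Finset.range n, (fun z : ℕ → (ℕ →₀ F) => z i) ⁻¹' {y i}, ?_, ?_, ?_⟩
  · intro z hz
    rw [Set.mem_iInter₂] at hz
    exact hQ y z (fun i hi => (hz i (Finset.mem_range.2 hi)).symm) hy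
  · exact isOpen_biInter_finset fun i _ =>
      (isOpen_discrete _).preimage (continuous_apply i)
  · rw [Set.mem_iInter₂]
    intro i _
    rfl

theorem isClosed_dep [TopologicalSpace (ℕ →₀ F)] [DiscreteTopology (ℕ →₀ F)] (n : ℕ)
    (Q : (ℕ → (ℕ →₀ F)) → Prop) (hQ : ∀ y z, (∀ i < n, y i = z i) → Q y → Q z) :
    IsClosed {y | Q y} := by
  rw [← isOpen_compl_iff]
  exact isOpen_dep n (fun y => ¬ Q y) fun y z hyz hy hz =>
    hy (hQ z y (fun i hi => (hyz i hi).symm) hz)

theorem isClosed_gseq [TopologicalSpace (ℕ →₀ F)] [DiscreteTopology (ℕ →₀ F)] :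
    IsClosed {a : ℕ → (ℕ →₀ F) | GSeq seq a} := by
  have h1 : {a : ℕ → (ℕ →₀ F) | GSeq seq a} =
      ⋂ n, {a : ℕ → (ℕ →₀ F) | GB seq (a n) ∧ sg seq (a n) = (List.range n).map a} := by
    ext a
    rw [Set.mem_iInter]
    rfl
  rw [h1]
  refine isClosed_iInter fun n => isClosed_dep (n + 1) _ fun y z hyz hy => ?_
  have e1 : (List.range n).map z = (List.range n).map y :=
    List.map_congr_left fun i hi => (hyz i (by
      rw [List.mem_range] at hi
      omega)).symm
  rw [← hyz n (Nat.lt_succ_self n), e1]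
  exact hy

theorem borel_fam [Countable F] :
    MeasurableSet[borel ((ℕ →₀ F) → Bool)] (chars (Fam seq)) := by
  classical
  let _ : TopologicalSpace (ℕ →₀ F) := ⊥
  have : DiscreteTopology (ℕ →₀ F) := ⟨rfl⟩
  let g : (ℕ → (ℕ →₀ F)) → ((ℕ →₀ F) → Bool) := fun y v =>
    decide (v ∈ lspan ((List.range (hi v + 1)).map y))
  have hg : Continuous g := by
    refine continuous_pi fun v => ?_
    rw [continuous_def]
    intro s _
    refine isOpen_dep (hi v + 1) (fun y => g y v ∈ s) fun y z hyz hy => ?_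
    have e1 : (List.range (hi v + 1)).map y = (List.range (hi v + 1)).map z :=
      List.map_congr_left fun i hi => hyz i (List.mem_range.1 hi)
    have e2 : g y v = g z v := by
      show decide _ = decide _
      rw [e1]
    rw [← e2]
    exact hy
  have hgc : ∀ y, GSeq seq y → ∀ v, g y v = true ↔ v ∈ Submodule.span F (Set.range y) := by
    intro y hy v
    rw [hy.mem_iff v]
    exact decide_eq_true_iff
  have h1 : chars (Fam seq) = g '' {y | GSeq seq y} := by
    ext χ
    constructor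
    · rintro ⟨A, ⟨y, hy, rfl⟩, hA⟩
      refine ⟨y, hy, ?_⟩
      funext v
      rw [Bool.eq_iff_iff, hA v, hgc y hy v]
    · rintro ⟨y, hy, rfl⟩
      exact ⟨_, ⟨y, hy, rfl⟩, fun v => hgc y hy v⟩
  have hinj : Set.InjOn g {y | GSeq seq y} := by
    intro y hy z hz hyz
    refine GSeq.span_inj hy hz ?_
    ext v
    rw [← hgc y hy v, ← hgc z hz v, hyz]
  rw [h1]
  have : PolishSpace (ℕ →₀ F) := {}
  let _ : MeasurableSpace ((ℕ →₀ F) → Bool) := borel _
  have : BorelSpace ((ℕ →₀ F) → Bool) := ⟨rfl⟩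
  exact isClosed_gseq.measurableSet_image_of_continuousOn_injOn hg.continuousOn hinj

theorem analytic_of_borel [Countable F] {T : Set ((ℕ →₀ F) → Bool)}
    (hT : MeasurableSet[borel ((ℕ →₀ F) → Bool)] T) : AnalyticSet T := by
  let _ : MeasurableSpace ((ℕ →₀ F) → Bool) := borel _
  have : BorelSpace ((ℕ →₀ F) → Bool) := ⟨rfl⟩
  have : PolishSpace Bool := {}
  have : PolishSpace ((ℕ →₀ F) → Bool) := inferInstance
  exact MeasurableSet.analyticSet hT

theorem length_le_S {l : List (ℕ →₀ F)} (h : ∀ t ∈ l, t ≠ 0) : l.length ≤ S l := by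
  induction l with
  | nil => simp [S]
  | cons x l ih =>
    have h1 := ih fun t ht => h t (List.mem_cons_of_mem _ ht)
    have h2 : 0 < x.support.card :=
      Finset.card_pos.2 (Finsupp.support_nonempty_iff.2 (h x List.mem_cons_self))
    have h3 : S (x :: l) = x.support.card + S l := by simp [S]
    rw [h3, List.length_cons]
    omega

theorem uncountable_fam (hc : ∀ j, 2 * S (seq j) < 2 ^ j) (hsurj : ∀ l, ∃ j, seq j = l) {α : F}
    (h0 : α ≠ 0) (h1 : α ≠ 1) : ¬ (Fam seq).Countable := by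
  classical
  intro hcount
  have hne : (Fam seq).Nonempty := by
    have htop : ¬ FiniteDimensional F (⊤ : Submodule F (ℕ →₀ F)) := by
      refine not_finite_of_far fun m => ⟨Finsupp.single m 1, trivial, by simp, ?_⟩
      intro i hi
      have := Finsupp.support_single_subset hi
      rw [Finset.mem_singleton] at this
      omega
    obtain ⟨a, ha, _⟩ := maximal hc hsurj htop h0 h1
    exact ⟨_, a, ha, rfl⟩
  obtain ⟨f, hf⟩ := hcount.exists_eq_range hne
  have hf' : ∀ l, ∃ a, GSeq seq a ∧ f l = Submodule.span F (Set.range a) := by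
    intro l
    have : f l ∈ Fam seq := by
      rw [hf]
      exact ⟨l, rfl⟩
    exact this
  choose a ha hfa using hf'
  let B : ℕ → ℕ := fun i =>
    (Finset.range (i + 1) ×ˢ Finset.range (i + 1)).sup fun p => hi (a p.1 p.2)
  let n : ℕ → ℕ := fun i => ∑ j ∈ Finset.range (i + 1), (B j + 1)
  have hB : ∀ i l k, l ≤ i → k ≤ i → hi (a l k) ≤ B i := by
    intro i l k hl hk
    have h2 : (l, k) ∈ Finset.range (i + 1) ×ˢ Finset.range (i + 1) :=
      Finset.mem_product.2 ⟨Finset.mem_range.2 (Nat.lt_succ_of_le hl),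
        Finset.mem_range.2 (Nat.lt_succ_of_le hk)⟩
    exact Finset.le_sup (f := fun p : ℕ × ℕ => hi (a p.1 p.2)) h2
  have hnB : ∀ i, B i < n i := by
    intro i
    have : B i + 1 ≤ ∑ j ∈ Finset.range (i + 1), (B j + 1) :=
      Finset.single_le_sum (f := fun j => B j + 1) (fun j _ => Nat.zero_le _)
        (Finset.mem_range.2 (Nat.lt_succ_self i))
    exact this
  have hnmono : StrictMono n := by
    refine strictMono_nat_of_lt_succ fun i => ?_
    have : n (i + 1) = n i + (B (i + 1) + 1) := Finset.sum_range_succ _ _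
    omega
  let X : Submodule F (ℕ →₀ F) := Finsupp.supported F F (Set.range n)
  have hX : ¬ FiniteDimensional F X := by
    refine not_finite_of_far fun m => ⟨Finsupp.single (n m) 1,
      Finsupp.single_mem_supported F 1 ⟨m, rfl⟩, by simp, ?_⟩
    intro i hi
    have := Finsupp.support_single_subset hi
    rw [Finset.mem_singleton] at this
    have := hnmono.le_apply (x := m)
    omega
  obtain ⟨b, hb, hfin⟩ := maximal hc hsurj hX h0 h1
  obtain ⟨l, hl⟩ : Submodule.span F (Set.range b) ∈ Set.range f := by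
    rw [← hf]
    exact ⟨b, hb, rfl⟩
  rw [hfa l] at hl
  rw [← hl] at hfin
  refine hfin (fin_low (m0 := n l) fun u hu q hq => ?_)
  by_contra huq
  have hq' : q ∈ u.support := Finsupp.mem_support_iff.2 huq
  have hu0 : u ≠ 0 := by
    rintro rfl
    simp at huq
  have hsupp : ∀ i ∈ u.support, i ∈ Set.range n := fun i hi' =>
    (Finsupp.mem_supported F u).1 hu.2 hi'
  obtain ⟨I, hI⟩ := hsupp _ (hi_mem hu0)
  have hlI : l ≤ I := by
    have h2 : n l ≤ n I := by
      rw [hI]
      exact hq.trans (le_hi hq')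
    exact hnmono.le_iff_le.1 h2
  have hcard : u.support.card ≤ I + 1 := by
    have h2 : u.support ⊆ (Finset.range (I + 1)).image n := by
      intro i hi'
      obtain ⟨j, rfl⟩ := hsupp i hi'
      have h3 := le_hi hi'
      rw [← hI, hnmono.le_iff_le] at h3
      exact Finset.mem_image.2 ⟨j, Finset.mem_range.2 (by omega), rfl⟩
    refine (Finset.card_le_card h2).trans (Finset.card_image_le.trans ?_)
    rw [Finset.card_range]
  obtain ⟨k, c, hc0, s, hs, he⟩ := (ha l).parse hu.1 hu0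
  have hbel : Below s (a l k) := (ha l).below_span hs
  have h2 : hi u = hi (a l k) := by
    rw [he]
    exact below_hi hbel ((ha l).ne_zero k) hc0
  have h3 : (a l k).support.card ≤ u.support.card := by
    apply Finset.card_le_card
    intro i hi'
    have h4 : Below s (c • a l k) := (below_smul hc0).2 hbel
    rw [he, h4.support_add, support_smul' hc0]
    exact Finset.mem_union_right _ hi'
  have h4 : k ≤ S (sg seq (a l k)) := by
    have h5 := length_le_S (l := sg seq (a l k)) (fun t ht => by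
      rw [(ha l k).2, List.mem_map] at ht
      obtain ⟨i, _, rfl⟩ := ht
      exact (ha l).ne_zero i)
    have h6 : (sg seq (a l k)).length = k := by
      rw [(ha l k).2]
      simp
    omega
  have h5 := S_sg_lt hc ((ha l).ne_zero k)
  have h6 := R_le_card (a l k)
  have h7 := hB I l k hlI (by omega)
  have h8 := hnB I
  omega

theorem main [Countable F] {α : F} (h0 : α ≠ 0) (h1 : α ≠ 1) :
    ∃ 𝒜 : Set (Submodule F (ℕ →₀ F)), IsMad 𝒜 ∧ ¬ 𝒜.Countable ∧
      MeasurableSet[borel ((ℕ →₀ F) → Bool)] (chars 𝒜) ∧ AnalyticSet (chars 𝒜) := by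
  obtain ⟨seq, hc, hsurj⟩ := exists_seq (F := F)
  exact ⟨Fam seq, isMad_fam hc hsurj h0 h1, uncountable_fam hc hsurj h0 h1, borel_fam,
    analytic_of_borel borel_fam⟩

end Pool.Agent.TH782.VMad
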