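import Pool.Agent.TH782.VMad.Basic

set_option autoImplicit false

/-! Good blocks and unique parsing. -/

namespace Pool.Agent.TH782.VMad

variable {F : Type} [Field F]

/-- The list announced by a vector. -/
noncomputable def sg (seq : ℕ → List (ℕ →₀ F)) (v : ℕ →₀ F) : List (ℕ →₀ F) :=
  seq (padicValNat 2 (R v))

/-- Good blocks. -/
def GB (seq : ℕ → List (ℕ →₀ F)) (b : ℕ →₀ F) : Prop :=
  b ≠ 0 ∧ (∀ t ∈ sg seq b, Below t b) ∧
  (∀ (i : ℕ) (h : i < (sg seq b).length), sg seq ((sg seq b)[i]) = (sg seq b).take i) ∧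
  (∀ t ∈ sg seq b, ∀ _h : t.support.card < b.support.card, GB seq t) ∧
  ∀ p : ℕ, ∀ _h : (suf p b).support.card < b.support.card, suf p b ≠ 0 → GB seq (suf p b) →
    ∀ s ∈ lspan (sg seq (suf p b)), ¬ ∀ q, (∃ i ∈ b.support, i ≤ q) → s q = (b - suf p b) q
termination_by b.support.card

/-- Good lists. -/
def Good (seq : ℕ → List (ℕ →₀ F)) (l : List (ℕ →₀ F)) : Prop :=
  ∀ (i : ℕ) (h : i < l.length), GB seq l[i] ∧ sg seq l[i] = l.take i

/-- Good sequences. -/
def GSeq (seq : ℕ → List (ℕ →₀ F)) (a : ℕ → (ℕ →₀ F)) : Prop :=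
  ∀ n, GB seq (a n) ∧ sg seq (a n) = (List.range n).map a

variable {seq : ℕ → List (ℕ →₀ F)}

theorem GB.ne_zero {b : ℕ →₀ F} (h : GB seq b) : b ≠ 0 := by
  rw [GB] at h
  exact h.1

theorem GB.below {b : ℕ →₀ F} (h : GB seq b) : ∀ t ∈ sg seq b, Below t b := by
  rw [GB] at h
  exact h.2.1

theorem GB.cap {b : ℕ →₀ F} (h : GB seq b) {p : ℕ} (hne : suf p b ≠ b) (hg : GB seq (suf p b))
    {s : ℕ →₀ F} (hs : s ∈ lspan (sg seq (suf p b)))
    (he : ∀ q, (∃ i ∈ b.support, i ≤ q) → s q = (b - suf p b) q) : False := by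
  have h0 := hg.ne_zero
  rw [GB] at h
  exact h.2.2.2.2 p (card_suf_lt hne) h0 hg s hs he

theorem S_sg_lt (hc : ∀ j, 2 * S (seq j) < 2 ^ j) {b : ℕ →₀ F} (hb : b ≠ 0) :
    2 * S (sg seq b) < R b := by
  have h1 := hc (padicValNat 2 (R b))
  have h2 : 2 ^ padicValNat 2 (R b) ≤ R b :=
    Nat.le_of_dvd (R_pos hb) pow_padicValNat_dvd
  exact lt_of_lt_of_le h1 h2

theorem GB.good (hc : ∀ j, 2 * S (seq j) < 2 ^ j) {b : ℕ →₀ F} (h : GB seq b) :
    Good seq (sg seq b) := by
  have h0 := h.ne_zero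
  rw [GB] at h
  intro i hi
  refine ⟨h.2.2.2.1 _ (List.getElem_mem hi) ?_, h.2.2.1 i hi⟩
  have h1 := mem_le_S (List.getElem_mem hi)
  have h2 := S_sg_lt hc h0
  have h3 := R_le_card b
  omega

theorem sg_smul {c : F} (hc : c ≠ 0) (b : ℕ →₀ F) : sg seq (c • b) = sg seq b := by
  unfold sg
  rw [R_smul hc]

theorem below_smul {c : F} (hc : c ≠ 0) {t b : ℕ →₀ F} : Below t (c • b) ↔ Below t b := by
  unfold Below
  rw [support_smul' hc]

theorem GB_smul_aux (n : ℕ) : ∀ b : ℕ →₀ F, b.support.card ≤ n → ∀ c : F, c ≠ 0 → GB seq b →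
    GB seq (c • b) := by
  induction n with
  | zero =>
    intro b hb c _ h
    exfalso
    apply h.ne_zero
    rw [Nat.le_zero, Finset.card_eq_zero, Finsupp.support_eq_empty] at hb
    exact hb
  | succ n ih =>
    intro b hb c hc h
    have h' := h
    rw [GB] at h'
    obtain ⟨h1, h2, h3, h4, _⟩ := h'
    rw [GB, sg_smul hc, support_smul' hc]
    refine ⟨smul_ne_zero hc h1, fun t ht => (below_smul hc).2 (h2 t ht), h3, h4, ?_⟩
    intro p hp hp0 hpg s hs hq
    rw [suf_smul] at hp hp0 hpg hs hq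
    rw [sg_smul hc] at hs
    rw [support_smul' hc] at hp
    have h5 : GB seq (suf p b) := by
      have := ih (c • suf p b) (by rw [support_smul' hc]; omega) c⁻¹ (inv_ne_zero hc) hpg
      rwa [inv_smul_smul₀ hc] at this
    refine h.cap (p := p) ?_ h5 (s := c⁻¹ • s) (Submodule.smul_mem _ _ hs) ?_
    · intro he
      rw [he] at hp
      exact lt_irrefl _ hp
    · intro q hq'
      have h6 := hq q hq'
      rw [Finsupp.smul_apply, h6, ← smul_sub, Finsupp.smul_apply, smul_eq_mul, smul_eq_mul,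
        inv_mul_cancel_left₀ hc]

theorem GB.smul {b : ℕ →₀ F} (h : GB seq b) {c : F} (hc : c ≠ 0) : GB seq (c • b) :=
  GB_smul_aux _ b le_rfl c hc h

/-- Uniqueness of the parsing, one-sided form. -/
theorem uniq_le {u : ℕ →₀ F} {m p p' : ℕ} (hp : p ≤ p') (hb : GB seq (suf p u))
    (hm : ∀ i ∈ (suf p u).support, m ≤ i) (hb' : GB seq (suf p' u)) {s' : ℕ →₀ F}
    (hs' : s' ∈ lspan (sg seq (suf p' u))) (h : ∀ q, m ≤ q → s' q = (u - suf p' u) q) :
    suf p u = suf p' u := by
  by_contra hne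
  have e : suf p' (suf p u) = suf p' u := suf_suf hp u
  refine hb.cap (p := p') (by rw [e]; exact fun h0 => hne h0.symm) (by rwa [e]) (s := s')
    (by rwa [e]) ?_
  rintro q ⟨i, hi, hiq⟩
  rw [e, h q ((hm i hi).trans hiq), Finsupp.sub_apply, Finsupp.sub_apply,
    suf_apply_of_le ((mem_support_suf.1 hi).1.trans hiq) u]

theorem uniq {u : ℕ →₀ F} {m p p' : ℕ} (hb : GB seq (suf p u))
    (hm : ∀ i ∈ (suf p u).support, m ≤ i) (hb' : GB seq (suf p' u))
    (hm' : ∀ i ∈ (suf p' u).support, m ≤ i) {s s' : ℕ →₀ F}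
    (hs : s ∈ lspan (sg seq (suf p u))) (h : ∀ q, m ≤ q → s q = (u - suf p u) q)
    (hs' : s' ∈ lspan (sg seq (suf p' u))) (h' : ∀ q, m ≤ q → s' q = (u - suf p' u) q) :
    suf p u = suf p' u := by
  rcases le_total p p' with hp | hp
  · exact uniq_le hp hb hm hb' hs' h'
  · exact (uniq_le hp hb' hm' hb hs h).symm

theorem Good.take {l : List (ℕ →₀ F)} (h : Good seq l) (k : ℕ) : Good seq (l.take k) := by
  intro i hi
  have h1 : i < l.length ∧ i < k := by
    rw [List.length_take] at hi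
    omega
  rw [List.getElem_take, List.take_take, min_eq_left h1.2.le]
  exact h i h1.1

theorem Good.below {l : List (ℕ →₀ F)} (h : Good seq l) {i j : ℕ} (hij : i < j)
    (hj : j < l.length) : Below (l[i]'(hij.trans hj)) l[j] := by
  obtain ⟨h1, h2⟩ := h j hj
  refine h1.below _ ?_
  rw [h2, List.mem_take_iff_getElem]
  exact ⟨i, by omega, rfl⟩

theorem Good.ne_zero {l : List (ℕ →₀ F)} (h : Good seq l) {j : ℕ} (hj : j < l.length) :
    l[j] ≠ 0 := (h j hj).1.ne_zero

theorem Good.hi_lt {l : List (ℕ →₀ F)} (h : Good seq l) {i j : ℕ} (hij : i < j)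
    (hj : j < l.length) : hi (l[i]'(hij.trans hj)) < hi l[j] :=
  h.below hij hj _ (hi_mem (h.ne_zero _)) _ (hi_mem (h.ne_zero _))

theorem Good.hi_le {l : List (ℕ →₀ F)} (h : Good seq l) {i j : ℕ} (hij : i ≤ j)
    (hj : j < l.length) : hi (l[i]'(lt_of_le_of_lt hij hj)) ≤ hi l[j] := by
  rcases hij.lt_or_eq with h1 | rfl
  · exact (h.hi_lt h1 hj).le
  · exact le_rfl

theorem Good.le_support {l : List (ℕ →₀ F)} (h : Good seq l) {j : ℕ} (hj : j < l.length) :
    ∀ q ∈ (l[j]).support, j ≤ q := by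
  induction j with
  | zero => intro q _; exact Nat.zero_le q
  | succ j ih =>
    intro q hq
    have h1 := ih (Nat.lt_of_succ_lt hj) _ (hi_mem (h.ne_zero (Nat.lt_of_succ_lt hj)))
    have h2 := h.below (Nat.lt_succ_self j) hj _ (hi_mem (h.ne_zero (Nat.lt_of_succ_lt hj))) q hq
    omega

theorem Good.below_take {l : List (ℕ →₀ F)} (h : Good seq l) {k : ℕ} (hk : k < l.length)
    {s : ℕ →₀ F} (hs : s ∈ lspan (l.take k)) : Below s l[k] := by
  refine below_span (fun t ht => ?_) hs
  refine (h k hk).1.below t ?_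
  rw [(h k hk).2]
  exact ht

theorem below_hi {s b : ℕ →₀ F} (h : Below s b) (hb : b ≠ 0) {c : F} (hc : c ≠ 0) :
    hi (s + c • b) = hi b := by
  have h' : Below s (c • b) := (below_smul hc).2 h
  apply hi_eq
  · rw [h'.support_add, support_smul' hc]
    exact Finset.mem_union_right _ (hi_mem hb)
  · intro j hj
    rw [h'.support_add, support_smul' hc, Finset.mem_union] at hj
    rcases hj with hj | hj
    · exact (h j hj _ (hi_mem hb)).le
    · exact le_hi hj

/-- The top block of a vector is one of its suffixes. -/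
theorem below_suf {s b : ℕ →₀ F} (h : Below s b) (hb : b ≠ 0) {c : F} (hc : c ≠ 0) :
    ∃ p ∈ b.support, (∀ i ∈ b.support, p ≤ i) ∧ suf p (s + c • b) = c • b := by
  have hne : b.support.Nonempty := Finsupp.support_nonempty_iff.2 hb
  refine ⟨b.support.min' hne, Finset.min'_mem _ _, fun j hj => Finset.min'_le _ j hj, ?_⟩
  rw [suf_add, suf_eq_zero (fun i hi => h i hi _ (Finset.min'_mem _ _)), zero_add]
  apply suf_eq_self
  intro i hi
  rw [support_smul' hc] at hi
  exact Finset.min'_le _ i hi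

theorem GSeq.good {a : ℕ → (ℕ →₀ F)} (h : GSeq seq a) (n : ℕ) :
    Good seq ((List.range n).map a) := by
  intro i hi
  rw [List.length_map, List.length_range] at hi
  rw [List.getElem_map, List.getElem_range, ← List.map_take, List.take_range, min_eq_left hi.le]
  exact h i

theorem GSeq.below {a : ℕ → (ℕ →₀ F)} (h : GSeq seq a) {i j : ℕ} (hij : i < j) :
    Below (a i) (a j) := by
  refine (h j).1.below _ ?_
  rw [(h j).2, List.mem_map]
  exact ⟨i, List.mem_range.2 hij, rfl⟩

theorem GSeq.ne_zero {a : ℕ → (ℕ →₀ F)} (h : GSeq seq a) (i : ℕ) : a i ≠ 0 := (h i).1.ne_zero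

theorem GSeq.le_support {a : ℕ → (ℕ →₀ F)} (h : GSeq seq a) (j : ℕ) :
    ∀ q ∈ (a j).support, j ≤ q := by
  have h1 := (h.good (j + 1)).le_support (j := j) (by simp)
  simpa using h1

theorem GSeq.not_finite {a : ℕ → (ℕ →₀ F)} (h : GSeq seq a) :
    ¬ FiniteDimensional F (Submodule.span F (Set.range a)) :=
  not_finite_of_far fun m => ⟨a m, Submodule.subset_span ⟨m, rfl⟩, h.ne_zero m, h.le_support m⟩

theorem mem_span_range_iff {a : ℕ → (ℕ →₀ F)} {u : ℕ →₀ F} :
    u ∈ Submodule.span F (Set.range a) ↔ ∃ n, u ∈ lspan ((List.range n).map a) := by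
  constructor
  · intro h
    induction h using Submodule.span_induction with
    | mem x hx =>
      obtain ⟨n, rfl⟩ := hx
      refine ⟨n + 1, Submodule.subset_span ?_⟩
      simp only [Set.mem_ofPred_eq, List.mem_map, List.mem_range]
      exact ⟨n, by omega, rfl⟩
    | zero => exact ⟨0, Submodule.zero_mem _⟩
    | add x y _ _ hx hy =>
      obtain ⟨n, hn⟩ := hx
      obtain ⟨m, hm⟩ := hy
      have mono : ∀ k l : ℕ, k ≤ l → lspan ((List.range k).map a) ≤ lspan ((List.range l).map a) := by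
        intro k l hkl
        apply Submodule.span_mono
        intro t ht
        simp only [Set.mem_ofPred_eq, List.mem_map, List.mem_range] at ht ⊢
        obtain ⟨i, hi, rfl⟩ := ht
        exact ⟨i, by omega, rfl⟩
      exact ⟨max n m, Submodule.add_mem _ (mono _ _ (le_max_left _ _) hn)
        (mono _ _ (le_max_right _ _) hm)⟩
    | smul c x _ hx =>
      obtain ⟨n, hn⟩ := hx
      exact ⟨n, Submodule.smul_mem _ _ hn⟩
  · rintro ⟨n, hn⟩
    refine Submodule.span_mono ?_ hn
    intro t ht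
    simp only [Set.mem_ofPred_eq, List.mem_map, List.mem_range] at ht
    obtain ⟨i, _, rfl⟩ := ht
    exact ⟨i, rfl⟩

/-- The parsing of a nonzero vector of a member of the family. -/
theorem GSeq.parse {a : ℕ → (ℕ →₀ F)} (_h : GSeq seq a) {u : ℕ →₀ F}
    (hu : u ∈ Submodule.span F (Set.range a)) (h0 : u ≠ 0) :
    ∃ k, ∃ c : F, c ≠ 0 ∧ ∃ s ∈ lspan ((List.range k).map a), u = s + c • a k := by
  obtain ⟨n, hn⟩ := mem_span_range_iff.1 hu
  obtain ⟨k, hk, c, hc, s, hs, he⟩ := exists_top hn h0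
  rw [List.length_map, List.length_range] at hk
  rw [← List.map_take, List.take_range, min_eq_left hk.le] at hs
  rw [List.getElem_map, List.getElem_range] at he
  exact ⟨k, c, hc, s, hs, he⟩

theorem GSeq.below_span {a : ℕ → (ℕ →₀ F)} (h : GSeq seq a) {k : ℕ} {s : ℕ →₀ F}
    (hs : s ∈ lspan ((List.range k).map a)) : Below s (a k) := by
  refine VMad.below_span (fun t ht => ?_) hs
  simp only [Set.mem_ofPred_eq, List.mem_map, List.mem_range] at ht
  obtain ⟨i, hi, rfl⟩ := ht
  exact h.below hi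

theorem GSeq.agree {a a' : ℕ → (ℕ →₀ F)} (h : GSeq seq a) (h' : GSeq seq a') {u : ℕ →₀ F}
    {k k' : ℕ} {c c' : F} {s s' : ℕ →₀ F} (hc : c ≠ 0) (hc' : c' ≠ 0)
    (hs : s ∈ lspan ((List.range k).map a)) (hs' : s' ∈ lspan ((List.range k').map a'))
    (hu : u = s + c • a k) (hu' : u = s' + c' • a' k') :
    k = k' ∧ ∀ i < k, a i = a' i := by
  obtain ⟨p, _, _, hp⟩ := below_suf (h.below_span hs) (h.ne_zero k) hc
  obtain ⟨p', _, _, hp'⟩ := below_suf (h'.below_span hs') (h'.ne_zero k') hc'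
  rw [← hu] at hp
  rw [← hu'] at hp'
  have hG : GB seq (suf p u) := by rw [hp]; exact (h k).1.smul hc
  have hG' : GB seq (suf p' u) := by rw [hp']; exact (h' k').1.smul hc'
  have e1 : sg seq (suf p u) = (List.range k).map a := by rw [hp, sg_smul hc, (h k).2]
  have e2 : sg seq (suf p' u) = (List.range k').map a' := by rw [hp', sg_smul hc', (h' k').2]
  have key : suf p u = suf p' u := by
    refine uniq (m := 0) (s := s) (s' := s') hG (fun i _ => Nat.zero_le i) hG'
      (fun i _ => Nat.zero_le i) (by rwa [e1]) (fun q _ => ?_) (by rwa [e2]) (fun q _ => ?_)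
    · rw [hp, hu, add_sub_cancel_right]
    · rw [hp', hu', add_sub_cancel_right]
  have e3 : (List.range k).map a = (List.range k').map a' := by rw [← e1, ← e2, key]
  have hk : k = k' := by
    have := congrArg List.length e3
    simpa using this
  subst hk
  refine ⟨rfl, fun i hi => ?_⟩
  have h1 : ((List.range k).map a)[i]? = ((List.range k).map a')[i]? := by rw [e3]
  simpa [List.getElem?_map, List.getElem?_range hi] using h1

theorem lspan_finite (l : List (ℕ →₀ F)) : FiniteDimensional F (lspan l) := by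
  unfold lspan
  exact FiniteDimensional.span_of_finite F (List.finite_toSet l)

/-- Different members are almost disjoint. -/
theorem GSeq.ad {a a' : ℕ → (ℕ →₀ F)} (h : GSeq seq a) (h' : GSeq seq a') (hne : a ≠ a') :
    FiniteDimensional F
      ↥(Submodule.span F (Set.range a) ⊓ Submodule.span F (Set.range a')) := by
  obtain ⟨m, hm⟩ := Function.ne_iff.1 hne
  have hle : Submodule.span F (Set.range a) ⊓ Submodule.span F (Set.range a') ≤
      lspan ((List.range (m + 1)).map a) := by
    intro u hu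
    by_cases h0 : u = 0
    · rw [h0]; exact Submodule.zero_mem _
    obtain ⟨k, c, hc, s, hs, he⟩ := h.parse hu.1 h0
    obtain ⟨k', c', hc', s', hs', he'⟩ := h'.parse hu.2 h0
    obtain ⟨_, h2⟩ := h.agree h' hc hc' hs hs' he he'
    have hk : k ≤ m := by
      by_contra hlt
      exact hm (h2 m (not_le.1 hlt))
    have mono : ∀ k l : ℕ, k ≤ l → lspan ((List.range k).map a) ≤ lspan ((List.range l).map a) := by
      intro k l hkl
      apply Submodule.span_mono
      intro t ht
      simp only [Set.mem_ofPred_eq, List.mem_map, List.mem_range] at ht ⊢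
      obtain ⟨i, hi, rfl⟩ := ht
      exact ⟨i, by omega, rfl⟩
    rw [he]
    refine Submodule.add_mem _ (mono k (m + 1) (by omega) hs) (Submodule.smul_mem _ _ ?_)
    refine Submodule.subset_span ?_
    simp only [Set.mem_ofPred_eq, List.mem_map, List.mem_range]
    exact ⟨k, by omega, rfl⟩
  have := lspan_finite ((List.range (m + 1)).map a)
  exact Submodule.finiteDimensional_of_le hle

theorem GSeq.span_inj {a a' : ℕ → (ℕ →₀ F)} (h : GSeq seq a) (h' : GSeq seq a')
    (he : Submodule.span F (Set.range a) = Submodule.span F (Set.range a')) : a = a' := by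
  by_contra hne
  have h1 := h.ad h' hne
  rw [← he, inf_idem] at h1
  exact h.not_finite h1

/-- Membership depends only on finitely many blocks. -/
theorem GSeq.mem_iff {a : ℕ → (ℕ →₀ F)} (h : GSeq seq a) (u : ℕ →₀ F) :
    u ∈ Submodule.span F (Set.range a) ↔ u ∈ lspan ((List.range (hi u + 1)).map a) := by
  constructor
  · intro hu
    by_cases h0 : u = 0
    · rw [h0]; exact Submodule.zero_mem _
    obtain ⟨k, c, hc, s, hs, he⟩ := h.parse hu h0
    have h1 : hi u = hi (a k) := by
      rw [he]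
      exact below_hi (h.below_span hs) (h.ne_zero k) hc
    have h2 : k ≤ hi u := by
      rw [h1]
      exact h.le_support k _ (hi_mem (h.ne_zero k))
    have mono : ∀ k l : ℕ, k ≤ l → lspan ((List.range k).map a) ≤ lspan ((List.range l).map a) := by
      intro k l hkl
      apply Submodule.span_mono
      intro t ht
      simp only [Set.mem_ofPred_eq, List.mem_map, List.mem_range] at ht ⊢
      obtain ⟨i, hi, rfl⟩ := ht
      exact ⟨i, by omega, rfl⟩
    have h3 : u ∈ lspan ((List.range (k + 1)).map a) := by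
      rw [he]
      refine Submodule.add_mem _ (mono k (k + 1) (by omega) hs) (Submodule.smul_mem _ _ ?_)
      refine Submodule.subset_span ?_
      simp only [Set.mem_ofPred_eq, List.mem_map, List.mem_range]
      exact ⟨k, by omega, rfl⟩
    exact mono _ _ (by omega) h3
  · intro hu
    exact mem_span_range_iff.2 ⟨_, hu⟩

end Pool.Agent.TH782.VMad
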