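import Pool.Agent.TH782.VMad.Parse

set_option autoImplicit false

/-! Vectors with prescribed numbers of runs in an infinite-dimensional subspace. -/

namespace Pool.Agent.TH782.VMad

variable {F : Type} [Field F]

theorem Below.add_left {x y z : ℕ →₀ F} (h1 : Below x z) (h2 : Below y z) : Below (x + y) z := by
  classical
  intro i hi j hj
  have h3 := Finsupp.support_add hi
  rw [Finset.mem_union] at h3
  rcases h3 with h3 | h3
  · exact h1 i h3 j hj
  · exact h2 i h3 j hj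

theorem below_of_bound {x y : ℕ →₀ F} {N : ℕ} (hx : ∀ i ∈ x.support, i < N)
    (hy : ∀ i ∈ y.support, N ≤ i) : Below x y :=
  fun i hi j hj => lt_of_lt_of_le (hx i hi) (hy j hj)

theorem lt_succ_hi (x : ℕ →₀ F) : ∀ i ∈ x.support, i < hi x + 1 :=
  fun _ hi => Nat.lt_succ_of_le (le_hi hi)

/-- Normalized vectors far out. -/
theorem exists_norm {X : Submodule F (ℕ →₀ F)} (hX : ¬ FiniteDimensional F X) (m : ℕ) :
    ∃ x ∈ X, (∀ i ∈ x.support, m ≤ i) ∧ Fst x 1 ∧ Lst x 1 := by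
  obtain ⟨x, hxX, hx0, hxm⟩ := exists_far hX m
  obtain ⟨y, hyX, hy0, hym⟩ := exists_far hX (max m (hi x + 1))
  obtain ⟨a, ha, hxa⟩ := exists_fst hx0
  obtain ⟨b, hb, hyb⟩ := exists_lst hy0
  have h1 : Fst (a⁻¹ • x) 1 := by
    have := hxa.smul (inv_ne_zero ha)
    rwa [inv_mul_cancel₀ ha] at this
  have h2 : Lst (b⁻¹ • y) 1 := by
    have := hyb.smul (inv_ne_zero hb)
    rwa [inv_mul_cancel₀ hb] at this
  have h3 : Below (a⁻¹ • x) (b⁻¹ • y) := by
    intro i hi' j hj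
    rw [support_smul' (inv_ne_zero ha)] at hi'
    rw [support_smul' (inv_ne_zero hb)] at hj
    have := hym j hj
    have := le_hi hi'
    omega
  refine ⟨a⁻¹ • x + b⁻¹ • y, X.add_mem (X.smul_mem _ hxX) (X.smul_mem _ hyX), ?_, h3.fst h1,
    h3.lst h2⟩
  intro i hi'
  rw [h3.support_add, support_smul' (inv_ne_zero ha), support_smul' (inv_ne_zero hb),
    Finset.mem_union] at hi'
  rcases hi' with hi' | hi'
  · exact hxm i hi'
  · exact (le_max_left _ _).trans (hym i hi')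

/-- Two different normalized vectors with the same number of runs. -/
theorem exists_pair {X : Submodule F (ℕ →₀ F)} (hX : ¬ FiniteDimensional F X) {α : F}
    (h0 : α ≠ 0) (h1 : α ≠ 1) (m : ℕ) :
    ∃ p q : ℕ →₀ F, (p ∈ X ∧ q ∈ X) ∧ (∀ i ∈ p.support, m ≤ i) ∧ (∀ i ∈ q.support, m ≤ i) ∧
      (Fst p 1 ∧ Lst p 1) ∧ (Fst q 1 ∧ Lst q 1) ∧ R p = R q ∧ p - q ≠ 0 := by
  obtain ⟨z1, hz1, hm1, hf1, hl1⟩ := exists_norm hX m
  obtain ⟨z2, hz2, hm2, hf2, hl2⟩ := exists_norm hX (max m (hi z1 + 1))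
  obtain ⟨z3, hz3, hm3, hf3, hl3⟩ := exists_norm hX (max m (max (hi z1 + 1) (hi z2 + 1)))
  obtain ⟨z4, hz4, hm4, hf4, hl4⟩ :=
    exists_norm hX (max m (max (hi z1 + 1) (max (hi z2 + 1) (hi z3 + 1))))
  have b12 : Below z1 (α • z2) := by
    rw [below_smul h0]
    exact below_of_bound (lt_succ_hi z1) fun i hi' => by have := hm2 i hi'; omega
  have b13 : Below z1 z3 :=
    below_of_bound (lt_succ_hi z1) fun i hi' => by have := hm3 i hi'; omega
  have b23 : Below (α • z2) z3 := by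
    intro i hi' j hj
    rw [support_smul' h0] at hi'
    have := hm3 j hj
    have := le_hi hi'
    omega
  have b14 : Below z1 z4 :=
    below_of_bound (lt_succ_hi z1) fun i hi' => by have := hm4 i hi'; omega
  have b24 : Below (α • z2) z4 := by
    intro i hi' j hj
    rw [support_smul' h0] at hi'
    have := hm4 j hj
    have := le_hi hi'
    omega
  have b34 : Below z3 z4 :=
    below_of_bound (lt_succ_hi z3) fun i hi' => by have := hm4 i hi'; omega
  have b34' : Below (α • z3) z4 := by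
    intro i hi' j hj
    rw [support_smul' h0] at hi'
    exact b34 i hi' j hj
  have c3 : Below (z1 + α • z2) z3 := b13.add_left b23
  have c3' : Below (z1 + α • z2) (α • z3) := (below_smul h0).2 c3
  have c4 : Below (z1 + α • z2 + z3) z4 := (b14.add_left b24).add_left b34
  have c4' : Below (z1 + α • z2 + α • z3) z4 := (b14.add_left b24).add_left b34'
  have f2 : Fst (α • z2) α := by simpa using hf2.smul h0
  have l2 : Lst (α • z2) α := by simpa using hl2.smul h0
  have f3 : Fst (α • z3) α := by simpa using hf3.smul h0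
  have l3 : Lst (α • z3) α := by simpa using hl3.smul h0
  have r1 : R (z1 + α • z2) = R z1 + R z2 := by
    rw [R_add_ne b12 hl1 f2 (Ne.symm h1), R_smul h0]
  have r2 : R (z1 + α • z2 + z3) = R z1 + R z2 + R z3 := by
    rw [R_add_ne c3 (b12.lst l2) hf3 h1, r1]
  have r2' : R (z1 + α • z2 + α • z3) + 1 = R z1 + R z2 + R z3 := by
    rw [R_add_eq c3' (b12.lst l2) f3, r1, R_smul h0]
  have r3 : R (z1 + α • z2 + z3 + z4) + 1 = R z1 + R z2 + R z3 + R z4 := by
    rw [R_add_eq c4 (c3.lst hl3) hf4, r2]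
  have r3' : R (z1 + α • z2 + α • z3 + z4) + 1 = R z1 + R z2 + R z3 + R z4 := by
    rw [R_add_ne c4' (c3'.lst l3) hf4 h1]
    omega
  have hmem : z1 + α • z2 ∈ X := X.add_mem hz1 (X.smul_mem _ hz2)
  refine ⟨z1 + α • z2 + α • z3 + z4, z1 + α • z2 + z3 + z4,
    ⟨X.add_mem (X.add_mem hmem (X.smul_mem _ hz3)) hz4, X.add_mem (X.add_mem hmem hz3) hz4⟩,
    ?_, ?_, ⟨c4'.fst (c3'.fst (b12.fst hf1)), c4'.lst hl4⟩,
    ⟨c4.fst (c3.fst (b12.fst hf1)), c4.lst hl4⟩, by omega, ?_⟩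
  · intro i hi'
    rw [c4'.support_add, c3'.support_add, b12.support_add, support_smul' h0, support_smul' h0,
      Finset.mem_union, Finset.mem_union, Finset.mem_union] at hi'
    rcases hi' with ((hi' | hi') | hi') | hi'
    · exact hm1 i hi'
    · have := hm2 i hi'; omega
    · have := hm3 i hi'; omega
    · have := hm4 i hi'; omega
  · intro i hi'
    rw [c4.support_add, c3.support_add, b12.support_add, support_smul' h0,
      Finset.mem_union, Finset.mem_union, Finset.mem_union] at hi'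
    rcases hi' with ((hi' | hi') | hi') | hi'
    · exact hm1 i hi'
    · have := hm2 i hi'; omega
    · have := hm3 i hi'; omega
    · have := hm4 i hi'; omega
  · have e : z1 + α • z2 + α • z3 + z4 - (z1 + α • z2 + z3 + z4) = (α - 1) • z3 := by
      rw [sub_smul, one_smul]
      abel
    rw [e]
    exact smul_ne_zero (sub_ne_zero.2 h1) hf3.ne_zero

/-- Consecutive numbers of runs. -/
theorem exists_runs {X : Submodule F (ℕ →₀ F)} (hX : ¬ FiniteDimensional F X) {α : F}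
    (h0 : α ≠ 0) (h1 : α ≠ 1) (m k : ℕ) :
    ∃ K N : ℕ, ∀ t ≤ k, ∃ y ∈ X, (∀ i ∈ y.support, m ≤ i ∧ i < N) ∧ Fst y 1 ∧ R y + t = K := by
  induction k with
  | zero =>
    obtain ⟨z, hz, hm, hf, _⟩ := exists_norm hX m
    refine ⟨R z, hi z + 1, fun t ht => ⟨z, hz, fun i hi' => ⟨hm i hi', lt_succ_hi z i hi'⟩, hf, ?_⟩⟩
    omega
  | succ k ih =>
    obtain ⟨K, N, H⟩ := ih
    obtain ⟨z, hz, hm, hf, _⟩ := exists_norm hX (max m N)
    have key : ∀ y ∈ X, (∀ i ∈ y.support, m ≤ i ∧ i < N) → Fst y 1 → ∀ c : F, c ≠ 0 →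
        Below y (c • z) ∧ (y + c • z ∈ X) ∧
        (∀ i ∈ (y + c • z).support, m ≤ i ∧ i < max N (hi z + 1)) ∧ Fst (y + c • z) 1 := by
      intro y hy hyb hyf c hc
      have hb : Below y (c • z) := by
        rw [below_smul hc]
        exact below_of_bound (fun i hi' => (hyb i hi').2) fun i hi' => by
          have := hm i hi'; omega
      refine ⟨hb, X.add_mem hy (X.smul_mem _ hz), ?_, hb.fst hyf⟩
      intro i hi'
      rw [hb.support_add, support_smul' hc, Finset.mem_union] at hi'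
      rcases hi' with hi' | hi'
      · have := hyb i hi'; omega
      · have := hm i hi'
        have := lt_succ_hi z i hi'
        omega
    refine ⟨K + R z, max N (hi z + 1), fun t ht => ?_⟩
    rcases Nat.lt_or_ge t (k + 1) with hlt | hge
    · obtain ⟨y, hy, hyb, hyf, hyR⟩ := H t (by omega)
      obtain ⟨l, hl0, hl⟩ := exists_lst hyf.ne_zero
      obtain ⟨hb, k1, k2, k3⟩ := key y hy hyb hyf (l * α) (mul_ne_zero hl0 h0)
      refine ⟨y + (l * α) • z, k1, k2, k3, ?_⟩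
      have hfz : Fst ((l * α) • z) (l * α) := by simpa using hf.smul (mul_ne_zero hl0 h0)
      have hne : l ≠ l * α := by
        intro he
        apply h1
        have h2 : l * α = l * 1 := by rw [mul_one]; exact he.symm
        exact mul_left_cancel₀ hl0 h2
      rw [R_add_ne hb hl hfz hne, R_smul (mul_ne_zero hl0 h0)]
      omega
    · have htk : t = k + 1 := by omega
      subst htk
      obtain ⟨y, hy, hyb, hyf, hyR⟩ := H k le_rfl
      obtain ⟨l, hl0, hl⟩ := exists_lst hyf.ne_zero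
      obtain ⟨hb, k1, k2, k3⟩ := key y hy hyb hyf l hl0
      refine ⟨y + l • z, k1, k2, k3, ?_⟩
      have hfz : Fst (l • z) l := by simpa using hf.smul hl0
      have h2 := R_add_eq hb hl hfz
      rw [R_smul hl0] at h2
      omega

theorem val_eq {j0 Q r : ℕ} (hQ : j0 < Q) (h1 : 2 ^ Q ∣ r + 2 ^ j0) (hr : r ≠ 0) :
    padicValNat 2 r = j0 := by
  have a1 : 2 ^ j0 ∣ r := by
    have h2 : 2 ^ j0 ∣ r + 2 ^ j0 := (pow_dvd_pow 2 hQ.le).trans h1
    exact (Nat.dvd_add_left (dvd_refl _)).1 h2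
  have a2 : ¬ 2 ^ (j0 + 1) ∣ r := by
    intro h3
    have h2 : 2 ^ (j0 + 1) ∣ r + 2 ^ j0 := (pow_dvd_pow 2 hQ).trans h1
    have h4 := (Nat.dvd_add_right h3).1 h2
    have h5 := Nat.le_of_dvd (by positivity) h4
    have h6 : 2 ^ (j0 + 1) = 2 * 2 ^ j0 := by rw [pow_succ]; ring
    have h7 : 0 < 2 ^ j0 := by positivity
    omega
  have b1 : j0 ≤ padicValNat 2 r := (padicValNat_dvd_iff_le hr).1 a1
  have b2 : ¬ j0 + 1 ≤ padicValNat 2 r := fun h => a2 ((padicValNat_dvd_iff_le hr).2 h)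
  omega

theorem arith {j0 Q c' D Rb Rb' : ℕ} (hQ : j0 < Q) (h1 : 2 ^ Q ∣ Rb + 2 ^ j0)
    (h2 : Rb = Rb' + D) (h3 : 2 * D < 2 ^ c') (hc' : 2 ^ c' ∣ Rb') :
    D = 0 ∨ 2 ^ (Q - 1) ≤ D := by
  have hj : 0 < 2 ^ j0 := by positivity
  have e1 : Rb + 2 ^ j0 = Rb' + (D + 2 ^ j0) := by omega
  rcases le_or_gt c' Q with hle | hlt
  · have h4 : 2 ^ c' ∣ D + 2 ^ j0 := by
      have h5 : 2 ^ c' ∣ Rb' + (D + 2 ^ j0) := by
        rw [← e1]
        exact (pow_dvd_pow 2 hle).trans h1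
      exact (Nat.dvd_add_right hc').1 h5
    rcases le_or_gt c' j0 with hle' | hlt'
    · left
      have h5 : 2 ^ c' ∣ D := (Nat.dvd_add_left (pow_dvd_pow 2 hle')).1 h4
      exact Nat.eq_zero_of_dvd_of_lt h5 (by omega)
    · exfalso
      have h5 : 2 ^ (j0 + 1) ≤ 2 ^ c' := Nat.pow_le_pow_right (by norm_num) hlt'
      have h6 : 2 ^ (j0 + 1) = 2 * 2 ^ j0 := by rw [pow_succ]; ring
      have h7 := Nat.le_of_dvd (by omega) h4
      omega
  · right
    have h4 : 2 ^ Q ∣ D + 2 ^ j0 := by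
      have h5 : 2 ^ Q ∣ Rb' + (D + 2 ^ j0) := by rw [← e1]; exact h1
      exact (Nat.dvd_add_right ((pow_dvd_pow 2 hlt.le).trans hc')).1 h5
    have h5 := Nat.le_of_dvd (by omega) h4
    have h6 : 2 ^ Q = 2 * 2 ^ (Q - 1) := by
      obtain ⟨n, rfl⟩ : ∃ n, Q = n + 1 := ⟨Q - 1, by omega⟩
      rw [pow_succ]
      simp
      ring
    have h7 : 2 ^ j0 ≤ 2 ^ (Q - 1) := Nat.pow_le_pow_right (by norm_num) (by omega)
    omega

end Pool.Agent.TH782.VMad
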